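import Mathlib

/-!
# The number of nondegenerate zeros of a system of polynomials
-/

set_option autoImplicit false

namespace Pool.Agent.Zk25.GP

open Polynomial

variable {k : Type*} [Field k] {n : ℕ}

/-- the deformed equations -/
noncomputable def Fv (d : ℕ) (f : Fin n → MvPolynomial (Fin n) k) (i : Fin n) (x : Fin n → k[X]) : k[X] :=
  MvPolynomial.aeval x (f i) + X * x i ^ (d + 1)

theorem taylor (g : MvPolynomial (Fin n) k) (x h : Fin n → k[X]) (m : ℕ) (hh : ∀ j, X ^ m ∣ h j) :
    X ^ (2 * m) ∣ MvPolynomial.aeval (x + h) g - MvPolynomial.aeval x g -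
      ∑ j, h j * MvPolynomial.aeval x (MvPolynomial.pderiv j g) := by
  classical
  induction g using MvPolynomial.induction_on with
  | C a =>
    simp
  | add p q hp hq =>
    have h1 := dvd_add hp hq
    refine h1.trans (dvd_of_eq ?_)
    simp only [map_add, mul_add, Finset.sum_add_distrib]
    ring
  | mul_X p i hp =>
    obtain ⟨E, hE⟩ := hp
    obtain ⟨S, hS⟩ : ∃ S, S = ∑ j, h j * MvPolynomial.aeval x (MvPolynomial.pderiv j p) := ⟨_, rfl⟩
    have hS1 : X ^ m ∣ S := by
      rw [hS]
      exact Finset.dvd_sum fun j _ => Dvd.dvd.mul_right (hh j) _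
    have h2 : ∑ j, h j * MvPolynomial.aeval x (MvPolynomial.pderiv j (p * MvPolynomial.X i)) =
        S * x i + h i * MvPolynomial.aeval x p := by
      have e1 : ∀ j, h j * MvPolynomial.aeval x (MvPolynomial.pderiv j (p * MvPolynomial.X i)) =
          h j * MvPolynomial.aeval x (MvPolynomial.pderiv j p) * x i +
            (if j = i then h i * MvPolynomial.aeval x p else 0) := by
        intro j
        rw [MvPolynomial.pderiv_mul, map_add, map_mul, map_mul, MvPolynomial.aeval_X]
        by_cases hji : j = i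
        · rw [if_pos hji, hji, MvPolynomial.pderiv_X_self, map_one]
          ring
        · rw [if_neg hji, MvPolynomial.pderiv_X_of_ne (Ne.symm hji), map_zero]
          ring
      rw [Finset.sum_congr rfl fun j _ => e1 j, Finset.sum_add_distrib, ← Finset.sum_mul, ← hS,
        Finset.sum_ite_eq' Finset.univ i, if_pos (Finset.mem_univ i)]
    rw [h2, map_mul, map_mul, MvPolynomial.aeval_X, MvPolynomial.aeval_X, Pi.add_apply]
    rw [← hS] at hE
    have h3 : MvPolynomial.aeval (x + h) p * (x i + h i) - MvPolynomial.aeval x p * x i -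
        (S * x i + h i * MvPolynomial.aeval x p) = S * h i + X ^ (2 * m) * (E * (x i + h i)) := by
      linear_combination (x i + h i) * hE
    rw [h3]
    refine dvd_add ?_ (dvd_mul_right _ _)
    rw [two_mul, pow_add]
    exact mul_dvd_mul hS1 (hh i)

theorem aeval_mod (g : MvPolynomial (Fin n) k) {p : Fin n → k} {x : Fin n → k[X]}
    (hx : ∀ i, X ∣ x i - C (p i)) : X ∣ MvPolynomial.aeval x g - C (MvPolynomial.eval p g) := by
  induction g using MvPolynomial.induction_on with
  | C a => simp
  | add p q hp hq =>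
    have h1 := dvd_add hp hq
    refine h1.trans (dvd_of_eq ?_)
    simp only [map_add]
    ring
  | mul_X q i hq =>
    have h1 : MvPolynomial.aeval x (q * MvPolynomial.X i) -
        C (MvPolynomial.eval p (q * MvPolynomial.X i)) =
        (MvPolynomial.aeval x q - C (MvPolynomial.eval p q)) * x i +
        C (MvPolynomial.eval p q) * (x i - C (p i)) := by
      simp only [map_mul, MvPolynomial.aeval_X, MvPolynomial.eval_X]
      ring
    rw [h1]
    exact dvd_add (Dvd.dvd.mul_right hq _) (Dvd.dvd.mul_left (hx i) _)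

theorem hensel {d : ℕ} {f : Fin n → MvPolynomial (Fin n) k} {p : Fin n → k}
    (hp : ∀ i, MvPolynomial.eval p (f i) = 0)
    (hJ : (Matrix.of fun i j => MvPolynomial.eval p (MvPolynomial.pderiv j (f i))).det ≠ 0) (m : ℕ) :
    ∃ x : Fin n → k[X], (∀ i, X ∣ x i - C (p i)) ∧ ∀ i, X ^ (m + 1) ∣ Fv d f i x := by
  classical
  induction m with
  | zero =>
    refine ⟨fun i => C (p i), fun i => by rw [sub_self]; exact dvd_zero _, fun i => ?_⟩
    unfold Fv
    rw [zero_add, pow_one]
    refine dvd_add ?_ (dvd_mul_right _ _)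
    have h1 := aeval_mod (f i) (p := p) (x := fun i => C (p i)) (fun i => by
      rw [sub_self]; exact dvd_zero _)
    rw [hp i, map_zero, sub_zero] at h1
    exact h1
  | succ m ih =>
    obtain ⟨x, hx, hF⟩ := ih
    choose v hv using hF
    obtain ⟨J, hJdef⟩ : ∃ J : Matrix (Fin n) (Fin n) k, J = Matrix.of fun i j =>
      MvPolynomial.eval p (MvPolynomial.pderiv j (f i)) := ⟨_, rfl⟩
    rw [← hJdef] at hJ
    obtain ⟨δ, hδ⟩ : ∃ δ : Fin n → k, J.mulVec δ = fun i => - (v i).coeff 0 := by
      refine ⟨J⁻¹.mulVec fun i => - (v i).coeff 0, ?_⟩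
      rw [Matrix.mulVec_mulVec, Matrix.mul_nonsing_inv _ (isUnit_iff_ne_zero.2 hJ), Matrix.one_mulVec]
    have hδ' : ∀ i, ∑ j, J i j * δ j = - (v i).coeff 0 := fun i => congrFun hδ i
    obtain ⟨h, hh⟩ : ∃ h : Fin n → k[X], h = fun j => X ^ (m + 1) * C (δ j) := ⟨_, rfl⟩
    have hhd : ∀ j, X ^ (m + 1) ∣ h j := fun j => by rw [hh]; exact dvd_mul_right _ _
    refine ⟨x + h, fun i => ?_, fun i => ?_⟩
    · have e1 : (x + h) i - C (p i) = (x i - C (p i)) + h i := by rw [Pi.add_apply]; ring
      rw [e1]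
      exact dvd_add (hx i) ((dvd_pow_self X (by omega)).trans (hhd i))
    · have h1 := taylor (f i) x h (m + 1) hhd
      have h1' : X ^ (m + 1 + 1) ∣ MvPolynomial.aeval (x + h) (f i) - MvPolynomial.aeval x (f i) -
          ∑ j, h j * MvPolynomial.aeval x (MvPolynomial.pderiv j (f i)) :=
        (pow_dvd_pow X (by omega)).trans h1
      have h2 : X ^ (m + 1 + 1) ∣ X * (x i + h i) ^ (d + 1) - X * x i ^ (d + 1) := by
        have e1 : (x i + h i) - x i ∣ (x i + h i) ^ (d + 1) - x i ^ (d + 1) := sub_dvd_pow_sub_pow _ _ _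
        rw [add_sub_cancel_left] at e1
        rw [← mul_sub, pow_succ, mul_comm (X ^ (m + 1)) X]
        exact mul_dvd_mul_left X ((hhd i).trans e1)
      have h3 : X ^ (m + 1 + 1) ∣ Fv d f i x +
          ∑ j, h j * MvPolynomial.aeval x (MvPolynomial.pderiv j (f i)) := by
        have e1 : X ∣ v i + ∑ j, C (δ j) * MvPolynomial.aeval x (MvPolynomial.pderiv j (f i)) := by
          have e2 : ∀ j, X ∣ MvPolynomial.aeval x (MvPolynomial.pderiv j (f i)) - C (J i j) := by
            intro j
            rw [hJdef]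
            exact aeval_mod _ hx
          have e3 : X ∣ v i - C ((v i).coeff 0) := by
            rw [X_dvd_iff]
            simp
          have e4 : v i + ∑ j, C (δ j) * MvPolynomial.aeval x (MvPolynomial.pderiv j (f i)) =
              (v i - C ((v i).coeff 0)) +
              ∑ j, C (δ j) * (MvPolynomial.aeval x (MvPolynomial.pderiv j (f i)) - C (J i j)) := by
            have e5 : ∑ j, C (δ j) * C (J i j) = - C ((v i).coeff 0) := by
              rw [← map_neg, ← hδ' i, map_sum]
              exact Finset.sum_congr rfl fun j _ => by rw [map_mul, mul_comm]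
            simp only [mul_sub, Finset.sum_sub_distrib]
            rw [e5]
            ring
          rw [e4]
          exact dvd_add e3 (Finset.dvd_sum fun j _ => Dvd.dvd.mul_left (e2 j) _)
        have e6 : Fv d f i x + ∑ j, h j * MvPolynomial.aeval x (MvPolynomial.pderiv j (f i)) =
            X ^ (m + 1) * (v i + ∑ j, C (δ j) * MvPolynomial.aeval x (MvPolynomial.pderiv j (f i))) := by
          rw [hv i, hh, mul_add, Finset.mul_sum]
          congr 1
          exact Finset.sum_congr rfl fun j _ => mul_assoc _ _ _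
        rw [e6, pow_succ]
        exact mul_dvd_mul_left _ e1
      have h4 : Fv d f i (x + h) = (MvPolynomial.aeval (x + h) (f i) - MvPolynomial.aeval x (f i) -
          ∑ j, h j * MvPolynomial.aeval x (MvPolynomial.pderiv j (f i))) +
          (X * (x i + h i) ^ (d + 1) - X * x i ^ (d + 1)) + (Fv d f i x +
          ∑ j, h j * MvPolynomial.aeval x (MvPolynomial.pderiv j (f i))) := by
        unfold Fv
        rw [Pi.add_apply]
        ring
      rw [h4]
      exact dvd_add (dvd_add h1' h2) h3

/-- reduction to bounded exponents -/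
def Red (d : ℕ) (f : Fin n → MvPolynomial (Fin n) k) (g : MvPolynomial (Fin n) k) : Prop :=
  ∃ (e : ℕ) (a : (Fin n → Fin (d + 1)) → k[X]), ∀ (m : ℕ) (x : Fin n → k[X]),
    (∀ i, X ^ m ∣ Fv d f i x) →
    X ^ m ∣ X ^ e * MvPolynomial.aeval x g - ∑ μ, a μ * ∏ i, x i ^ (μ i : ℕ)

theorem Red.add {d : ℕ} {f : Fin n → MvPolynomial (Fin n) k} {g g' : MvPolynomial (Fin n) k}
    (h : Red d f g) (h' : Red d f g') : Red d f (g + g') := by
  obtain ⟨e, a, h⟩ := h
  obtain ⟨e', a', h'⟩ := h'
  refine ⟨e + e', fun μ => X ^ e' * a μ + X ^ e * a' μ, fun m x hx => ?_⟩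
  have h1 := dvd_add (Dvd.dvd.mul_left (h m x hx) (X ^ e')) (Dvd.dvd.mul_left (h' m x hx) (X ^ e))
  refine h1.trans (dvd_of_eq ?_)
  simp only [add_mul, Finset.sum_add_distrib, map_add, mul_assoc]
  rw [← Finset.mul_sum, ← Finset.mul_sum]
  ring

theorem Red.zero {d : ℕ} {f : Fin n → MvPolynomial (Fin n) k} : Red d f 0 :=
  ⟨0, 0, fun m x hx => by simp⟩

theorem Red.sum {d : ℕ} {f : Fin n → MvPolynomial (Fin n) k} {ι : Type*} (s : Finset ι)
    (g : ι → MvPolynomial (Fin n) k) (h : ∀ i ∈ s, Red d f (g i)) : Red d f (∑ i ∈ s, g i) := by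
  classical
  induction s using Finset.induction_on with
  | empty => exact Red.zero
  | insert a s ha ih =>
    rw [Finset.sum_insert ha]
    exact (h a (Finset.mem_insert_self a s)).add (ih fun i hi => h i (Finset.mem_insert_of_mem hi))

theorem red_all {d : ℕ} {f : Fin n → MvPolynomial (Fin n) k} (hf : ∀ i, (f i).totalDegree ≤ d)
    (D : ℕ) : ∀ g : MvPolynomial (Fin n) k, g.totalDegree ≤ D → Red d f g := by
  classical
  induction D using Nat.strong_induction_on with
  | _ D ih =>
    intro g hg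
    rw [g.as_sum]
    refine Red.sum _ _ fun μ hμ => ?_
    have hμD : μ.sum (fun _ e => e) ≤ D := (MvPolynomial.le_totalDegree hμ).trans hg
    obtain ⟨c, hc⟩ : ∃ c, c = g.coeff μ := ⟨_, rfl⟩
    rw [← hc]
    by_cases hsmall : ∀ i, μ i ≤ d
    · refine ⟨0, fun ν => if (∀ i, (ν i : ℕ) = μ i) then C c else 0, fun m x _ => ?_⟩
      have h1 : ∑ ν : Fin n → Fin (d + 1), (if (∀ i, (ν i : ℕ) = μ i) then C c else 0) *
          ∏ i, x i ^ (ν i : ℕ) = C c * ∏ i, x i ^ (μ i) := by
        rw [Finset.sum_eq_single (fun i => (⟨μ i, Nat.lt_succ_of_le (hsmall i)⟩ : Fin (d + 1)))]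
        · rw [if_pos (fun i => rfl)]
        · intro ν _ hν
          rw [if_neg, zero_mul]
          intro h
          exact hν (funext fun i => Fin.ext (h i))
        · intro h
          exact absurd (Finset.mem_univ _) h
      have h2 : MvPolynomial.aeval x (MvPolynomial.monomial μ c) = C c * ∏ i, x i ^ (μ i) := by
        rw [MvPolynomial.aeval_monomial, Finsupp.prod_fintype _ _ (fun i => pow_zero _)]
        rfl
      rw [h1, h2, pow_zero, one_mul, sub_self]
      exact dvd_zero _
    · push Not at hsmall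
      obtain ⟨i, hi⟩ := hsmall
      obtain ⟨μ', hμ'⟩ : ∃ μ' : Fin n →₀ ℕ, μ = μ' + Finsupp.single i (d + 1) := by
        refine ⟨μ - Finsupp.single i (d + 1), ?_⟩
        rw [tsub_add_cancel_of_le]
        rw [Finsupp.single_le_iff]
        omega
      have hdeg : μ'.sum (fun _ e => e) + (d + 1) ≤ D := by
        have e1 : μ.sum (fun _ e => e) = μ'.sum (fun _ e => e) + (d + 1) := by
          rw [hμ', Finsupp.sum_add_index' (fun _ => rfl) (fun _ _ _ => rfl),
            Finsupp.sum_single_index rfl]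
        omega
      have hg' : (MvPolynomial.monomial μ' (-c) * f i).totalDegree ≤ D - 1 := by
        refine (MvPolynomial.totalDegree_mul _ _).trans ?_
        have e1 : (MvPolynomial.monomial μ' (-c)).totalDegree ≤ μ'.sum (fun _ e => e) :=
          MvPolynomial.totalDegree_monomial_le μ' (-c)
        have e2 := hf i
        omega
      obtain ⟨e, a, h⟩ := ih (D - 1) (by omega) _ hg'
      refine ⟨e + 1, a, fun m x hx => ?_⟩
      have h1 := h m x hx
      have h2 : MvPolynomial.aeval x (MvPolynomial.monomial μ c) =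
          C c * (∏ j, x j ^ (μ' j)) * x i ^ (d + 1) := by
        have e0 : ∀ j, x j ^ (μ j) = x j ^ (μ' j) * (if j = i then x i ^ (d + 1) else 1) := by
          intro j
          rw [hμ', Finsupp.add_apply, pow_add, Finsupp.single_apply]
          by_cases hij : i = j
          · rw [if_pos hij, if_pos hij.symm, hij]
          · rw [if_neg hij, if_neg (Ne.symm hij), pow_zero]
        rw [MvPolynomial.aeval_monomial, Finsupp.prod_fintype _ _ (fun i => pow_zero _),
          Finset.prod_congr rfl fun j _ => e0 j, Finset.prod_mul_distrib,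
          Finset.prod_ite_eq' Finset.univ i, if_pos (Finset.mem_univ i), ← mul_assoc]
        rfl
      have h3 : MvPolynomial.aeval x (MvPolynomial.monomial μ' (-c) * f i) =
          - (C c * (∏ j, x j ^ (μ' j))) * MvPolynomial.aeval x (f i) := by
        rw [map_mul, MvPolynomial.aeval_monomial, Finsupp.prod_fintype _ _ (fun i => pow_zero _)]
        have e1 : algebraMap k k[X] (-c) = - C c := by
          rw [map_neg]
          rfl
        rw [e1]
        ring
      have h4 : X ^ (e + 1) * MvPolynomial.aeval x (MvPolynomial.monomial μ c) -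
          ∑ μ, a μ * ∏ i, x i ^ (μ i : ℕ) = (X ^ e *
            MvPolynomial.aeval x (MvPolynomial.monomial μ' (-c) * f i) -
            ∑ μ, a μ * ∏ i, x i ^ (μ i : ℕ)) + X ^ e * (C c * (∏ j, x j ^ (μ' j))) * Fv d f i x := by
        rw [h2, h3]
        unfold Fv
        ring
      rw [h4]
      exact dvd_add h1 (Dvd.dvd.mul_left (hx i) _)

/-- separating polynomials -/
theorem separate (P : Finset (Fin n → k)) (q : Fin n → k) :
    ∃ h : MvPolynomial (Fin n) k, MvPolynomial.eval q h ≠ 0 ∧
      ∀ p ∈ P, p ≠ q → MvPolynomial.eval p h = 0 := by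
  classical
  have h1 : ∀ p : Fin n → k, ∃ l : MvPolynomial (Fin n) k, MvPolynomial.eval q l ≠ 0 ∧
      (p ≠ q → MvPolynomial.eval p l = 0) := by
    intro p
    by_cases hpq : p = q
    · exact ⟨1, by simp, fun h => absurd hpq h⟩
    · obtain ⟨i, hi⟩ := Function.ne_iff.1 hpq
      refine ⟨MvPolynomial.X i - MvPolynomial.C (p i), ?_, fun _ => ?_⟩
      · rw [map_sub, MvPolynomial.eval_X, MvPolynomial.eval_C, sub_ne_zero]
        exact Ne.symm hi
      · rw [map_sub, MvPolynomial.eval_X, MvPolynomial.eval_C, sub_self]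
  choose l hl1 hl2 using h1
  refine ⟨∏ p ∈ P, l p, ?_, fun p hp hpq => ?_⟩
  · rw [map_prod]
    exact Finset.prod_ne_zero_iff.2 fun p _ => hl1 p
  · rw [map_prod]
    exact Finset.prod_eq_zero hp (hl2 p hpq)

/-- **the number of nondegenerate zeros** -/
theorem bez {d : ℕ} {f : Fin n → MvPolynomial (Fin n) k} (hf : ∀ i, (f i).totalDegree ≤ d)
    (P : Finset (Fin n → k)) (hP : ∀ p ∈ P, ∀ i, MvPolynomial.eval p (f i) = 0)
    (hJ : ∀ p ∈ P, (Matrix.of fun i j => MvPolynomial.eval p (MvPolynomial.pderiv j (f i))).det ≠ 0) :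
    P.card ≤ (d + 1) ^ n := by
  classical
  by_contra hcon
  rw [not_le] at hcon
  choose h hh1 hh2 using fun q : Fin n → k => separate P q
  choose e a hea using fun q : Fin n → k => red_all hf (h q).totalDegree (h q) le_rfl
  obtain ⟨m, hm⟩ : ∃ m, m = ∑ q ∈ P, e q := ⟨_, rfl⟩
  have hem : ∀ q ∈ P, e q ≤ m := fun q hq => by
    rw [hm]
    exact Finset.single_le_sum (fun _ _ => Nat.zero_le _) hq
  choose x hx1 hx2 using fun p : P => hensel (d := d) (hP p p.2) (hJ p p.2) m
  obtain ⟨V, hV⟩ : ∃ V : P → (Fin n → Fin (d + 1)) → k[X], V = fun p μ => ∏ i, x p i ^ (μ i : ℕ) :=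
    ⟨_, rfl⟩
  have hdep : ¬ LinearIndependent k[X] V := by
    intro hli
    have h1 := hli.fintype_card_le_finrank
    rw [Module.finrank_fintype_fun_eq_card, Fintype.card_coe, Fintype.card_fun, Fintype.card_fin,
      Fintype.card_fin] at h1
    omega
  rw [Fintype.not_linearIndependent_iff] at hdep
  obtain ⟨c, hc, p₀, hp₀⟩ := hdep
  have hkey : ∀ c : P → k[X], ∑ p, c p • V p = 0 → ∀ q, X ∣ c q := by
    intro c hc q
    have h1 : ∀ μ : Fin n → Fin (d + 1), ∑ p, c p * ∏ i, x p i ^ (μ i : ℕ) = 0 := by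
      intro μ
      have := congrFun hc μ
      rw [Finset.sum_apply] at this
      rw [hV] at this
      exact this
    have h2 : X ^ (m + 1) ∣ ∑ p, c p * (X ^ e q * MvPolynomial.aeval (x p) (h q) -
        ∑ μ : Fin n → Fin (d + 1), a q μ * ∏ i, x p i ^ (μ i : ℕ)) :=
      Finset.dvd_sum fun p _ => Dvd.dvd.mul_left (hea q (m + 1) (x p) (hx2 p)) _
    have h3 : ∑ p, c p * (X ^ e q * MvPolynomial.aeval (x p) (h q) -
        ∑ μ : Fin n → Fin (d + 1), a q μ * ∏ i, x p i ^ (μ i : ℕ)) =
        X ^ e q * ∑ p, c p * MvPolynomial.aeval (x p) (h q) := by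
      simp only [mul_sub, Finset.sum_sub_distrib, Finset.mul_sum]
      rw [Finset.sum_comm (s := (Finset.univ : Finset P)) (t := (Finset.univ : Finset (Fin n → Fin (d + 1))))]
      have e1 : ∀ μ : Fin n → Fin (d + 1), ∑ p, c p * (a q μ * ∏ i, x p i ^ (μ i : ℕ)) = 0 := by
        intro μ
        have e2 : ∀ p, c p * (a q μ * ∏ i, x p i ^ (μ i : ℕ)) =
            a q μ * (c p * ∏ i, x p i ^ (μ i : ℕ)) := fun p => by ring
        rw [Finset.sum_congr rfl fun p _ => e2 p, ← Finset.mul_sum, h1, mul_zero]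
      rw [Finset.sum_congr rfl fun μ _ => e1 μ, Finset.sum_const_zero, sub_zero]
      exact Finset.sum_congr rfl fun p _ => by ring
    rw [h3] at h2
    have h4 : X ∣ ∑ p, c p * MvPolynomial.aeval (x p) (h q) := by
      have e1 : X ^ (m + 1) = (X : k[X]) ^ e q * X ^ (m + 1 - e q) := by
        rw [← pow_add]
        congr 1
        have := hem q q.2
        omega
      rw [e1] at h2
      have e2 := (mul_dvd_mul_iff_left (pow_ne_zero (e q) (X_ne_zero : (X : k[X]) ≠ 0))).1 h2
      exact (dvd_pow_self X (by have := hem q q.2; omega)).trans e2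
    have h5 : X ∣ ∑ p, c p * (MvPolynomial.aeval (x p) (h q) - C (MvPolynomial.eval (p : Fin n → k) (h q))) :=
      Finset.dvd_sum fun p _ => Dvd.dvd.mul_left (aeval_mod _ (hx1 p)) _
    have h6 : ∑ p, c p * (MvPolynomial.aeval (x p) (h q) - C (MvPolynomial.eval (p : Fin n → k) (h q))) =
        ∑ p, c p * MvPolynomial.aeval (x p) (h q) - c q * C (MvPolynomial.eval (q : Fin n → k) (h q)) := by
      simp only [mul_sub, Finset.sum_sub_distrib]
      congr 1
      refine Finset.sum_eq_single q (fun p _ hp => ?_) (fun hq => absurd (Finset.mem_univ _) hq)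
      rw [hh2 q p p.2 (fun h => hp (Subtype.ext h)), map_zero, mul_zero]
    rw [h6] at h5
    have h7 : X ∣ c q * C (MvPolynomial.eval (q : Fin n → k) (h q)) := by
      have := dvd_sub h4 h5
      rw [sub_sub_cancel] at this
      exact this
    have h8 : IsUnit (C (MvPolynomial.eval (q : Fin n → k) (h q)) : k[X]) :=
      isUnit_C.2 (isUnit_iff_ne_zero.2 (hh1 q))
    exact (h8.dvd_mul_right).1 h7
  have hall : ∀ (j : ℕ) (c : P → k[X]), ∑ p, c p • V p = 0 → ∀ q, X ^ j ∣ c q := by
    intro j
    induction j with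
    | zero => intro c _ q; rw [pow_zero]; exact one_dvd _
    | succ j ih =>
      intro c hc q
      choose c' hc' using hkey c hc
      have h1 : ∑ p, c' p • V p = 0 := by
        have h2 : (X : k[X]) • ∑ p, c' p • V p = (0 : (Fin n → Fin (d + 1)) → k[X]) := by
          rw [Finset.smul_sum, ← hc]
          refine Finset.sum_congr rfl fun p _ => ?_
          rw [smul_smul, ← hc']
        exact (smul_eq_zero.1 h2).resolve_left X_ne_zero
      rw [hc' q, pow_succ']
      exact mul_dvd_mul_left (X : k[X]) (ih c' h1 q)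
  apply hp₀
  by_contra hne
  have h1 := hall ((c p₀).natDegree + 1) c hc p₀
  have h2 := natDegree_le_of_dvd h1 hne
  rw [natDegree_X_pow] at h2
  omega

end Pool.Agent.Zk25.GP
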