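import Pool.Agent.Zk25.GP.Bez
import Pool.Agent.Zk25.AX.Fin

/-!
# Counting points of small dimensional sets in boxes
-/

set_option autoImplicit false

namespace Pool.Agent.Zk25.GP

open MvPolynomial Module Pool.Agent.Zk25

/-- the common kernel of the differentials at a point -/
def Kf {N : ℕ} (𝓕 : Set (MvPolynomial (Fin N) ℚ)) (p : Fin N → ℚ) : Submodule ℚ (Fin N → ℚ) where
  carrier := {τ | ∀ g ∈ 𝓕, ∑ j, τ j * eval p (pderiv j g) = 0}
  add_mem' := by
    intro a b ha hb g hg
    simp only [Pi.add_apply, add_mul, Finset.sum_add_distrib]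
    rw [ha g hg, hb g hg, add_zero]
  zero_mem' := by
    intro g _
    simp
  smul_mem' := by
    intro c a ha g hg
    simp only [Pi.smul_apply, smul_eq_mul, mul_assoc]
    rw [← Finset.mul_sum, ha g hg, mul_zero]

/-- a finite generating family -/
theorem finite_family {N d : ℕ} (𝓕 : Set (MvPolynomial (Fin N) ℚ)) (hd : ∀ g ∈ 𝓕, g.totalDegree ≤ d) :
    ∃ (m : ℕ) (B : Fin m → MvPolynomial (Fin N) ℚ), m ≤ (d + 1) ^ N ∧ (∀ a, B a ∈ 𝓕) ∧
      ∀ g ∈ 𝓕, g ∈ Submodule.span ℚ (Set.range B) := by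
  classical
  obtain ⟨S, hS1, hS2, hS3⟩ := exists_linearIndependent ℚ 𝓕
  -- coefficients
  obtain ⟨Φ, hΦ⟩ : ∃ Φ : MvPolynomial (Fin N) ℚ →ₗ[ℚ] ((Fin N → Fin (d + 1)) → ℚ),
      ∀ g μ, Φ g μ = coeff (Finsupp.equivFunOnFinite.symm fun i => ((μ i : Fin (d + 1)) : ℕ)) g := by
    refine ⟨LinearMap.pi fun μ => lcoeff ℚ
      (Finsupp.equivFunOnFinite.symm fun i => ((μ i : Fin (d + 1)) : ℕ)), fun g μ => rfl⟩
  have hinj : ∀ g : MvPolynomial (Fin N) ℚ, g.totalDegree ≤ d → Φ g = 0 → g = 0 := by
    intro g hg h0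
    ext μ
    rw [coeff_zero]
    by_cases hμ : ∀ i, μ i ≤ d
    · have h1 := congrFun h0 (fun i => ⟨μ i, Nat.lt_succ_of_le (hμ i)⟩)
      rw [hΦ, Pi.zero_apply] at h1
      have h2 : (Finsupp.equivFunOnFinite.symm fun i => (((⟨μ i, Nat.lt_succ_of_le (hμ i)⟩ :
          Fin (d + 1)) : Fin (d + 1)) : ℕ)) = μ := by
        ext i
        rfl
      rw [h2] at h1
      exact h1
    · by_contra hne
      apply hμ
      intro i
      have h1 := le_totalDegree (mem_support_iff.2 hne)
      have h2 : μ i ≤ μ.sum fun _ e => e := by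
        rw [Finsupp.sum_fintype _ _ (fun _ => rfl)]
        exact Finset.single_le_sum (f := fun i => μ i) (fun _ _ => Nat.zero_le _) (Finset.mem_univ i)
      omega
  have hspan : ∀ g ∈ Submodule.span ℚ S, g.totalDegree ≤ d := by
    intro g hg
    have h1 : Submodule.span ℚ S ≤ restrictTotalDegree (Fin N) ℚ d := by
      rw [Submodule.span_le]
      intro s hs
      exact (mem_restrictTotalDegree _ _ _).2 (hd s (hS1 hs))
    exact (mem_restrictTotalDegree _ _ _).1 (h1 hg)
  have hli : LinearIndependent ℚ (Φ ∘ fun s : S => (s : MvPolynomial (Fin N) ℚ)) := by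
    refine hS3.map ?_
    rw [Subtype.range_coe, disjoint_iff, eq_bot_iff]
    rintro g ⟨hg1, hg2⟩
    rw [Submodule.mem_bot]
    exact hinj g (hspan g hg1) hg2
  have hfin : Finite S := hli.finite
  let _ := Fintype.ofFinite S
  have hcard : Fintype.card S ≤ (d + 1) ^ N := by
    have := hli.fintype_card_le_finrank
    rw [Module.finrank_fintype_fun_eq_card, Fintype.card_fun, Fintype.card_fin, Fintype.card_fin] at this
    exact this
  obtain ⟨e⟩ : Nonempty (Fin (Fintype.card S) ≃ S) := ⟨(Fintype.equivFin S).symm⟩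
  refine ⟨Fintype.card S, fun a => (e a : MvPolynomial (Fin N) ℚ), hcard, fun a => hS1 (e a).2,
    fun g hg => ?_⟩
  have h1 : Set.range (fun a => (e a : MvPolynomial (Fin N) ℚ)) = S := by
    ext v
    constructor
    · rintro ⟨a, rfl⟩
      exact (e a).2
    · intro hv
      obtain ⟨a, ha⟩ := e.surjective ⟨v, hv⟩
      exact ⟨a, by show (e a : MvPolynomial (Fin N) ℚ) = v; rw [ha]⟩
  rw [h1, hS2]
  exact Submodule.subset_span hg

/-- an independent subfamily -/
theorem exists_sub {C V : Type*} [Field C] [AddCommGroup V] [Module C V] {ι : Type*} [Finite ι]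
    (v : ι → V) (n : ℕ) (hn : n ≤ finrank C (Submodule.span C (Set.range v))) :
    ∃ I : Fin n → ι, Function.Injective I ∧ LinearIndependent C (v ∘ I) := by
  by_contra hcon
  push Not at hcon
  have := AX.finrank_lt v n hcon
  omega

/-- a nonzero minor of the Jacobian matrix -/
theorem exists_minor {N n m : ℕ} (B : Fin m → MvPolynomial (Fin N) ℚ) (p : Fin N → ℚ)
    (hn : finrank ℚ (Kf (Set.range B) p) + n ≤ N) :
    ∃ (J : Fin n → Fin N) (a : Fin n → Fin m), Function.Injective J ∧
      (Matrix.of fun i b => eval p (pderiv (J b) (B (a i)))).det ≠ 0 := by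
  classical
  obtain ⟨K, hK⟩ : ∃ K, K = Kf (Set.range B) p := ⟨_, rfl⟩
  rw [← hK] at hn
  obtain ⟨v, hv⟩ : ∃ v : Fin N → (Fin N → ℚ) ⧸ K, v = fun j => K.mkQ (Pi.single j 1) := ⟨_, rfl⟩
  have hvs : ∀ τ : Fin N → ℚ, K.mkQ τ = ∑ j, τ j • v j := by
    intro τ
    rw [hv]
    have h1 : ∑ j, τ j • K.mkQ (Pi.single j (1 : ℚ)) = K.mkQ (∑ j, τ j • Pi.single j (1 : ℚ)) := by
      rw [map_sum]
      exact Finset.sum_congr rfl fun j _ => (map_smul _ _ _).symm
    rw [h1]
    congr 1
    funext i
    rw [Finset.sum_apply]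
    simp [Pi.single_apply]
  have hspan : Submodule.span ℚ (Set.range v) = ⊤ := by
    rw [eq_top_iff]
    rintro w -
    obtain ⟨τ, rfl⟩ := K.mkQ_surjective w
    rw [hvs]
    exact Submodule.sum_mem _ fun j _ => Submodule.smul_mem _ _ (Submodule.subset_span ⟨j, rfl⟩)
  have h1 : n ≤ finrank ℚ (Submodule.span ℚ (Set.range v)) := by
    rw [hspan, finrank_top]
    have := Submodule.finrank_quotient_add_finrank K
    rw [Module.finrank_fintype_fun_eq_card, Fintype.card_fin] at this
    omega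
  obtain ⟨J, hJ, hJli⟩ := exists_sub v n h1
  obtain ⟨U, hU⟩ : ∃ U : Matrix (Fin m) (Fin n) ℚ, U = Matrix.of fun g b => eval p (pderiv (J b) (B g)) :=
    ⟨_, rfl⟩
  have hUinj : LinearMap.ker U.mulVecLin = ⊥ := by
    rw [LinearMap.ker_eq_bot']
    intro τ hτ
    have h2 : ∀ g, ∑ b, U g b * τ b = 0 := fun g => congrFun hτ g
    have h3 : (∑ b, τ b • (Pi.single (J b) (1 : ℚ) : Fin N → ℚ)) ∈ K := by
      rw [hK]
      rintro _ ⟨g, rfl⟩
      simp only [Finset.sum_apply, Pi.smul_apply, smul_eq_mul, Finset.sum_mul, Pi.single_apply]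
      rw [Finset.sum_comm]
      refine Eq.trans ?_ (h2 g)
      refine Finset.sum_congr rfl fun b _ => ?_
      rw [Finset.sum_eq_single (J b)]
      · rw [if_pos rfl, hU, Matrix.of_apply]
        ring
      · intro j _ hj
        rw [if_neg hj]
        ring
      · intro h
        exact absurd (Finset.mem_univ _) h
    have h4 : ∑ b, τ b • (v ∘ J) b = 0 := by
      have h5 : K.mkQ (∑ b, τ b • (Pi.single (J b) (1 : ℚ) : Fin N → ℚ)) = 0 :=
        (Submodule.Quotient.mk_eq_zero _).2 h3
      rw [map_sum] at h5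
      rw [← h5]
      refine Finset.sum_congr rfl fun b _ => ?_
      rw [map_smul, hv]
      rfl
    funext b
    exact Fintype.linearIndependent_iff.1 hJli τ h4 b
  have hUr : U.rank = n := by
    have h2 := U.mulVecLin.finrank_range_add_finrank_ker
    rw [hUinj, finrank_bot, Module.finrank_fintype_fun_eq_card, Fintype.card_fin, add_zero] at h2
    exact h2
  have h2 : n ≤ finrank ℚ (Submodule.span ℚ (Set.range U.row)) := by
    rw [← Matrix.rank_eq_finrank_span_row, hUr]
  obtain ⟨a, _, hali⟩ := exists_sub U.row n h2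
  refine ⟨J, a, hJ, ?_⟩
  intro hdet
  rw [← Matrix.exists_vecMul_eq_zero_iff] at hdet
  obtain ⟨w, hw0, hw⟩ := hdet
  apply hw0
  funext i
  refine Fintype.linearIndependent_iff.1 hali w ?_ i
  funext b
  have h3 := congrFun hw b
  rw [Matrix.vecMul, dotProduct] at h3
  rw [Finset.sum_apply]
  rw [← h3]
  refine Finset.sum_congr rfl fun i _ => ?_
  rw [Pi.smul_apply, smul_eq_mul, hU]
  rfl

/-- substitution of some coordinates -/
theorem bind_degree {N n : ℕ} (s : Fin N → MvPolynomial (Fin n) ℚ) (hs : ∀ j, (s j).totalDegree ≤ 1)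
    (g : MvPolynomial (Fin N) ℚ) : (aeval s g).totalDegree ≤ g.totalDegree := by
  conv_lhs => rw [g.as_sum]
  rw [map_sum]
  refine totalDegree_finsetSum_le fun μ hμ => ?_
  rw [aeval_monomial, Finsupp.prod_fintype _ _ (fun i => pow_zero _)]
  refine (totalDegree_mul _ _).trans ?_
  have h1 : (algebraMap ℚ (MvPolynomial (Fin n) ℚ) (coeff μ g)).totalDegree = 0 := totalDegree_C _
  rw [h1, zero_add]
  refine (totalDegree_finsetProd _ _).trans ?_
  refine (Finset.sum_le_sum fun j _ => ?_ : _ ≤ ∑ j, μ j).trans ?_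
  · refine (totalDegree_pow _ _).trans ?_
    calc μ j * (s j).totalDegree ≤ μ j * 1 := Nat.mul_le_mul_left _ (hs j)
      _ = μ j := mul_one _
  · have h2 := le_totalDegree hμ
    rw [Finsupp.sum_fintype _ _ (fun _ => rfl)] at h2
    exact h2

theorem bind_pderiv {N n : ℕ} (s : Fin N → MvPolynomial (Fin n) ℚ) (J : Fin n → Fin N)
    (hs : ∀ b j, pderiv b (s j) = C (if j = J b then 1 else 0)) (b : Fin n)
    (g : MvPolynomial (Fin N) ℚ) : pderiv b (aeval s g) = aeval s (pderiv (J b) g) := by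
  classical
  induction g using MvPolynomial.induction_on with
  | C a => simp
  | add p q hp hq => rw [map_add, map_add, map_add, map_add, hp, hq]
  | mul_X p j hp =>
    rw [map_mul, aeval_X, pderiv_mul, hp, hs, pderiv_mul, map_add, map_mul, map_mul, aeval_X]
    congr 1
    congr 1
    by_cases hj : j = J b
    · rw [if_pos hj, hj, pderiv_X_self, map_one, map_one]
    · rw [if_neg hj, pderiv_X_of_ne hj, map_zero, map_zero]

/-- the points with a given nonzero minor -/
theorem count_minor {N n m d W : ℕ} (B : Fin m → MvPolynomial (Fin N) ℚ)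
    (hB : ∀ a, (B a).totalDegree ≤ d) (J : Fin n → Fin N) (hJ : Function.Injective J)
    (a : Fin n → Fin m) (A : Fin N → Finset ℚ) (hA : ∀ j, (A j).card ≤ W)
    (G : Finset (Fin N → ℚ)) (hG : G ⊆ Fintype.piFinset A)
    (hG0 : ∀ p ∈ G, ∀ a, eval p (B a) = 0)
    (hGJ : ∀ p ∈ G, (Matrix.of fun i b => eval p (pderiv (J b) (B (a i)))).det ≠ 0) :
    G.card ≤ (d + 1) ^ n * W ^ (N - n) := by
  classical
  obtain ⟨π, hπ⟩ : ∃ π : (Fin N → ℚ) → (Fin N → ℚ), π = fun p j => if ∃ b, J b = j then 0 else p j :=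
    ⟨_, rfl⟩
  have h1 : (G.image π).card ≤ W ^ (N - n) := by
    have h2 : G.image π ⊆ Fintype.piFinset fun j => if ∃ b, J b = j then {0} else A j := by
      intro q hq
      obtain ⟨p, hp, rfl⟩ := Finset.mem_image.1 hq
      rw [Fintype.mem_piFinset]
      intro j
      have h3 := (Fintype.mem_piFinset.1 (hG hp)) j
      rw [hπ]
      by_cases hj : ∃ b, J b = j
      · simp only [hj, if_true, Finset.mem_singleton]
      · simp only [hj, if_false]
        exact h3
    refine (Finset.card_le_card h2).trans ?_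
    rw [Fintype.card_piFinset]
    have h3 : ∀ j, (if ∃ b, J b = j then ({0} : Finset ℚ) else A j).card ≤
        if ∃ b, J b = j then 1 else W := by
      intro j
      by_cases hj : ∃ b, J b = j
      · rw [if_pos hj, if_pos hj, Finset.card_singleton]
      · rw [if_neg hj, if_neg hj]
        exact hA j
    refine (Finset.prod_le_prod' fun j _ => h3 j).trans ?_
    rw [Finset.prod_ite, Finset.prod_const_one, one_mul, Finset.prod_const]
    refine le_of_eq ?_
    congr 1
    have h4 : (Finset.univ.filter fun j => ¬ ∃ b, J b = j) = Finset.univ \ Finset.univ.image J := by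
      ext j
      simp
    rw [h4, Finset.card_sdiff_of_subset (Finset.subset_univ _), Finset.card_image_of_injective _ hJ]
    simp
  refine (Finset.card_le_mul_card_image (f := π) G ((d + 1) ^ n) ?_).trans
    (Nat.mul_le_mul_left _ h1)
  intro q _
  obtain ⟨s, hs⟩ : ∃ s : Fin N → MvPolynomial (Fin n) ℚ, s = fun j =>
    if h : ∃ b, J b = j then X h.choose else C (q j) := ⟨_, rfl⟩
  have hsJ : ∀ b, s (J b) = X b := by
    intro b
    have h2 : ∃ b', J b' = J b := ⟨b, rfl⟩
    have h3 : h2.choose = b := hJ h2.choose_spec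
    rw [hs]
    simp only [dif_pos h2]
    rw [h3]
  have hsn : ∀ j, (¬ ∃ b, J b = j) → s j = C (q j) := by
    intro j hj
    rw [hs]
    simp only [dif_neg hj]
  have hs1 : ∀ j, (s j).totalDegree ≤ 1 := by
    intro j
    by_cases hj : ∃ b, J b = j
    · obtain ⟨b, rfl⟩ := hj
      rw [hsJ, totalDegree_X]
    · rw [hsn j hj, totalDegree_C]
      omega
  have hs2 : ∀ b j, pderiv b (s j) = C (if j = J b then 1 else 0) := by
    intro b j
    by_cases hj : ∃ b, J b = j
    · obtain ⟨b', rfl⟩ := hj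
      rw [hsJ]
      by_cases hbb : b' = b
      · rw [hbb, pderiv_X_self, if_pos rfl, map_one]
      · rw [pderiv_X_of_ne hbb, if_neg (fun h => hbb (hJ h)), map_zero]
    · rw [hsn j hj, pderiv_C, if_neg, map_zero]
      intro h
      exact hj ⟨b, h.symm⟩
  obtain ⟨Fb, hFb⟩ : ∃ Fb : Finset (Fin N → ℚ), Fb = G.filter fun p => π p = q := ⟨_, rfl⟩
  have hpt : ∀ p ∈ Fb, ∀ g : MvPolynomial (Fin N) ℚ, eval (p ∘ J) (aeval s g) = eval p g := by
    intro p hp g
    rw [hFb, Finset.mem_filter] at hp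
    have h2 : (fun j => eval (p ∘ J) (s j)) = p := by
      funext j
      by_cases hj : ∃ b, J b = j
      · obtain ⟨b, rfl⟩ := hj
        rw [hsJ, eval_X]
        rfl
      · rw [hsn j hj, eval_C, ← hp.2, hπ]
        simp only [hj, if_false]
    conv_rhs => rw [← h2]
    induction g using MvPolynomial.induction_on with
    | C a => simp
    | add p q hp hq => rw [map_add, map_add, map_add, hp, hq]
    | mul_X p j hp => rw [map_mul, map_mul, map_mul, hp, aeval_X, eval_X]
  have hinj : Set.InjOn (fun p : Fin N → ℚ => p ∘ J) Fb := by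
    intro p hp p' hp' h
    rw [hFb, Finset.coe_filter] at hp hp'
    funext j
    by_cases hj : ∃ b, J b = j
    · obtain ⟨b, rfl⟩ := hj
      exact congrFun h b
    · have h2 := congrFun (hp.2.trans hp'.2.symm) j
      rw [hπ] at h2
      simp only [hj, if_false] at h2
      exact h2
  have h2 := bez (f := fun i => aeval s (B (a i))) (d := d)
    (fun i => (bind_degree s hs1 _).trans (hB _)) (Fb.image fun p => p ∘ J) (by
      intro y hy i
      obtain ⟨p, hp, rfl⟩ := Finset.mem_image.1 hy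
      rw [hpt p hp]
      have hp' := hp
      rw [hFb, Finset.mem_filter] at hp'
      exact hG0 p hp'.1 _) (by
      intro y hy
      obtain ⟨p, hp, rfl⟩ := Finset.mem_image.1 hy
      have hp' := hp
      rw [hFb, Finset.mem_filter] at hp'
      have h3 : (Matrix.of fun i b => eval (p ∘ J) (pderiv b (aeval s (B (a i))))) =
          Matrix.of fun i b => eval p (pderiv (J b) (B (a i))) := by
        ext i b
        rw [Matrix.of_apply, Matrix.of_apply, bind_pderiv s J hs2, hpt p hp]
      rw [h3]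
      exact hGJ p hp'.1)
  rw [Finset.card_image_of_injOn hinj, hFb] at h2
  exact h2

/-- **counting points** -/
theorem count {N e d W : ℕ} (𝓕 : Set (MvPolynomial (Fin N) ℚ)) (hd : ∀ g ∈ 𝓕, g.totalDegree ≤ d)
    (hW : 1 ≤ W) (A : Fin N → Finset ℚ) (hA : ∀ j, (A j).card ≤ W) (G : Finset (Fin N → ℚ))
    (hG : G ⊆ Fintype.piFinset A) (hG0 : ∀ p ∈ G, ∀ g ∈ 𝓕, eval p g = 0)
    (hGK : ∀ p ∈ G, finrank ℚ (Kf 𝓕 p) ≤ e) :
    G.card ≤ (N * (d + 1) ^ (N + 1)) ^ (N - e) * W ^ e := by
  classical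
  by_cases heN : N ≤ e
  · rw [Nat.sub_eq_zero_of_le heN, pow_zero, one_mul]
    refine (Finset.card_le_card hG).trans ?_
    rw [Fintype.card_piFinset]
    refine (Finset.prod_le_prod' fun j _ => hA j).trans ?_
    rw [Finset.prod_const, Finset.card_univ, Fintype.card_fin]
    exact Nat.pow_le_pow_right hW heN
  rw [not_le] at heN
  obtain ⟨m, B, hm, hB1, hB2⟩ := finite_family 𝓕 hd
  obtain ⟨n, hn⟩ : ∃ n, n = N - e := ⟨_, rfl⟩
  have hK : ∀ p, Kf (Set.range B) p ≤ Kf 𝓕 p := by
    intro p τ hτ g hg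
    have h1 := hB2 g hg
    rw [Submodule.mem_span_range_iff_exists_fun] at h1
    obtain ⟨c, rfl⟩ := h1
    have h2 : ∀ j, eval p (pderiv j (∑ i, c i • B i)) = ∑ i, c i * eval p (pderiv j (B i)) := by
      intro j
      rw [map_sum, map_sum]
      refine Finset.sum_congr rfl fun i _ => ?_
      rw [Derivation.map_smul, smul_eval]
    simp only [h2, Finset.mul_sum]
    rw [Finset.sum_comm]
    refine Finset.sum_eq_zero fun i _ => ?_
    have h3 := hτ (B i) ⟨i, rfl⟩
    have h4 : ∀ j, τ j * (c i * eval p (pderiv j (B i))) = c i * (τ j * eval p (pderiv j (B i))) :=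
      fun j => by ring
    rw [Finset.sum_congr rfl fun j _ => h4 j, ← Finset.mul_sum, h3, mul_zero]
  have h1 : ∀ p ∈ G, ∃ q : (Fin n → Fin N) × (Fin n → Fin m), Function.Injective q.1 ∧
      (Matrix.of fun i b => eval p (pderiv (q.1 b) (B (q.2 i)))).det ≠ 0 := by
    intro p hp
    obtain ⟨J, a, hJ, ha⟩ := exists_minor (n := n) B p (by
      have h2 := Submodule.finrank_mono (hK p)
      have h3 := hGK p hp
      omega)
    exact ⟨(J, a), hJ, ha⟩
  have h2 : G ⊆ Finset.univ.biUnion fun q : (Fin n → Fin N) × (Fin n → Fin m) =>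
      G.filter fun p => Function.Injective q.1 ∧
        (Matrix.of fun i b => eval p (pderiv (q.1 b) (B (q.2 i)))).det ≠ 0 := by
    intro p hp
    obtain ⟨q, hq⟩ := h1 p hp
    exact Finset.mem_biUnion.2 ⟨q, Finset.mem_univ _, Finset.mem_filter.2 ⟨hp, hq⟩⟩
  have h3 : ∀ q : (Fin n → Fin N) × (Fin n → Fin m), (G.filter fun p => Function.Injective q.1 ∧
        (Matrix.of fun i b => eval p (pderiv (q.1 b) (B (q.2 i)))).det ≠ 0).card ≤
        (d + 1) ^ n * W ^ e := by
    intro q
    by_cases hq : Function.Injective q.1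
    · have h4 := count_minor (d := d) B (fun a => hd _ (hB1 a)) q.1 hq q.2 A hA
        (G.filter fun p => Function.Injective q.1 ∧
        (Matrix.of fun i b => eval p (pderiv (q.1 b) (B (q.2 i)))).det ≠ 0)
        ((Finset.filter_subset _ _).trans hG)
        (fun p hp a => hG0 p (Finset.mem_filter.1 hp).1 _ (hB1 a))
        (fun p hp => (Finset.mem_filter.1 hp).2.2)
      have h5 : N - n = e := by omega
      rw [h5] at h4
      exact h4
    · rw [Finset.filter_eq_empty_iff.2 (fun p _ h => hq h.1), Finset.card_empty]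
      exact Nat.zero_le _
  refine (Finset.card_le_card h2).trans ((Finset.card_biUnion_le).trans
    ((Finset.sum_le_sum fun q _ => h3 q).trans ?_))
  rw [Finset.sum_const, Finset.card_univ, Fintype.card_prod, Fintype.card_fun, Fintype.card_fun,
    Fintype.card_fin, Fintype.card_fin, Fintype.card_fin, smul_eq_mul, ← mul_assoc, ← hn]
  refine Nat.mul_le_mul_right _ ?_
  rw [← mul_pow, ← mul_pow]
  refine Nat.pow_le_pow_left ?_ n
  calc N * m * (d + 1) ≤ N * (d + 1) ^ N * (d + 1) :=
        Nat.mul_le_mul_right _ (Nat.mul_le_mul_left _ hm)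
    _ = N * (d + 1) ^ (N + 1) := by rw [pow_succ]; ring

end Pool.Agent.Zk25.GP
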