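import Pool.Agent.Zk25.GP.Tang

/-!
# The space of rational tangent vectors is small
-/

set_option autoImplicit false

namespace Pool.Agent.Zk25.GP

open Pool.Agent.Zk25 Pool.Agent.Zk25.LT

theorem kernel_small {L : IntermediateField ℚ ℂ} {s : ℕ} (hL : Algebra.trdeg ℚ L ≤ s) {M N ρ C : ℕ}
    (hC : 3 ^ ((s + ρ + 2) ^ 3) ≤ C) (hM : C + ρ ≤ M) {β : Fin M → ℂ} (hβ : LinearIndependent ℚ β)
    {x : Fin N → ℂ} (hx : LinearIndependent ℚ x) (w : Fin M → ℂ) (I : Fin ρ → Fin M)
    (hI : AlgebraicIndependent L (fun b => Complex.exp (w (I b))))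
    (hmax : ∀ i, IsAlgebraic (ext L (Finset.univ.image fun b => Complex.exp (w (I b))))
      (Complex.exp (w i))) :
    ∃ D₁ : Fin ρ → Derivation ℤ ℂ ℂ, (∀ a, D₁ a ∈ Dr L) ∧
      (∀ a b, DL (D₁ a) (w (I b)) = if a = b then 1 else 0) ∧
      ∀ τ : Fin C → Fin N → ℚ, LinearIndependent ℚ τ →
        ∃ l, ¬ Tan L w I D₁ (fun i => β i * ∑ j, (τ l j : ℂ) * x j) := by
  classical
  obtain ⟨K₀, D₁, χ, m, h1, h2, h3, hm, hχ, hT⟩ := tangent hL w I hI hmax
  refine ⟨D₁, h2, h3, fun τ hτ => ?_⟩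
  by_contra hcon
  push Not at hcon
  obtain ⟨S, hS⟩ : ∃ S : Finset (Fin M), S = Finset.univ \ Finset.univ.image I := ⟨_, rfl⟩
  have hScard : C ≤ S.card := by
    have h4 : (Finset.univ.image I).card ≤ ρ := Finset.card_image_le.trans (by simp)
    rw [hS, Finset.card_sdiff_of_subset (Finset.subset_univ _)]
    simp only [Finset.card_univ, Fintype.card_fin]
    omega
  obtain ⟨J, hJmem, hJinj⟩ : ∃ J : Fin C → Fin M, (∀ a, J a ∈ S) ∧ Function.Injective J :=
    ⟨S.orderEmbOfCardLe hScard, fun a => S.orderEmbOfCardLe_mem hScard a,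
      (S.orderEmbOfCardLe hScard).injective⟩
  have hJ : ∀ a, J a ∉ Set.range I := by
    rintro a ⟨q, hq⟩
    have h1 := hJmem a
    rw [hS, Finset.mem_sdiff] at h1
    exact h1.2 (Finset.mem_image.2 ⟨q, Finset.mem_univ _, hq⟩)
  have hli : LinearIndependent ℚ (fun (a : Fin C) i' => (χ (J a) i' : ℚ)) := by
    rw [Fintype.linearIndependent_iff]
    intro g hg a'
    have e1 := congrFun hg (J a')
    rw [Finset.sum_apply] at e1
    have e2 : ∀ a, (g a • fun i' => (χ (J a) i' : ℚ)) (J a') = if a = a' then g a * m else 0 := by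
      intro a
      show g a * (χ (J a) (J a') : ℚ) = _
      rw [hχ _ _ (hJ a) (hJ a')]
      by_cases haa : a = a'
      · rw [if_pos (by rw [haa]), if_pos haa]
      · rw [if_neg (fun h => haa (hJinj h).symm), if_neg haa, Int.cast_zero, mul_zero]
    rw [Finset.sum_congr rfl fun a _ => e2 a, Finset.sum_ite_eq' Finset.univ a' (fun a => g a * m),
      if_pos (Finset.mem_univ _)] at e1
    exact (mul_eq_zero.1 e1).resolve_right (by exact_mod_cast hm)
  have hb := comb_indep hβ hli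
  have hy : LinearIndependent ℚ (fun l => ∑ j, (τ l j : ℂ) * x j) := by
    have h4 := hτ.map' (Fintype.linearCombination ℚ x) (by
      rw [LinearMap.ker_eq_bot]
      exact linearIndependent_iff_injective_fintypeLinearCombination.1 hx)
    have h5 : (Fintype.linearCombination ℚ x ∘ τ) = fun l => ∑ j, (τ l j : ℂ) * x j := by
      funext l
      simp only [Function.comp_apply, Fintype.linearCombination_apply]
      exact Finset.sum_congr rfl fun j _ => Rat.smul_def _ _
    rw [← h5]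
    exact h4
  obtain ⟨a, l, hal⟩ := (tr (s + ρ)).mono hC _ _ hb hy K₀ h1
  apply hal
  have h4 := hT _ (hcon l) (J a)
  have h5 : (∑ i', (χ (J a) i' : ℂ) * β i') * ∑ j, (τ l j : ℂ) * x j =
      ∑ i', (χ (J a) i' : ℂ) * (β i' * ∑ j, (τ l j : ℂ) * x j) := by
    rw [Finset.sum_mul]
    exact Finset.sum_congr rfl fun i' _ => mul_assoc _ _ _
  rw [h5]
  exact h4

end Pool.Agent.Zk25.GP
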