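import Pool.Agent.Zk25.LT.Main
import Pool.Agent.Zk25.AX.Ext

/-!
# Logarithmic derivatives of exponentials
-/

set_option autoImplicit false

namespace Pool.Agent.Zk25.GP

open Polynomial Pool.Agent.Zk25 Pool.Agent.Zk25.LT

/-- a derivation which is dual to a member of an algebraically independent set -/
theorem exists_der_basis {K E : Type*} [Field K] [Field E] [Algebra K E] [CharZero E] (S : Set E)
    (h1 : AlgebraicIndepOn K id S) (u : E) (hu : u ∈ S) :
    ∃ D : Derivation ℤ E E, D u = 1 ∧ (∀ v ∈ S, v ≠ u → D v = 0) ∧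
      ∀ k : K, D (algebraMap K E k) = 0 := by
  classical
  obtain ⟨t, ht, hb⟩ := exists_isTranscendenceBasis_superset h1
  have hut : u ∈ t := ht hu
  obtain ⟨s, hs⟩ : ∃ s : Set t, s = {x : t | (x : E) ≠ u} := ⟨_, rfl⟩
  let A : Subalgebra K E := Algebra.adjoin K ((fun x : t => (x : E)) '' s)
  have hA : Transcendental A u := by
    have := hb.1.transcendental_adjoin (s := s) (i := ⟨u, hut⟩) (by rw [hs]; simp)
    exact this
  let _ : Algebra A[X] E := (aeval u : A[X] →ₐ[A] E).toRingHom.toAlgebra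
  have hmap : ∀ p : A[X], algebraMap A[X] E p = aeval u p := fun p => rfl
  have : IsScalarTower A A[X] E := IsScalarTower.of_algebraMap_eq fun a => by
    rw [hmap]
    have : algebraMap A A[X] a = C a := rfl
    rw [this, aeval_C]
  have hinj : Function.Injective (algebraMap A[X] E) := transcendental_iff_injective.1 hA
  have : FaithfulSMul A[X] E := (faithfulSMul_iff_algebraMap_injective _ _).2 hinj
  have hle : ∀ a ∈ Algebra.adjoin K (Set.range fun x : t => (x : E)), ∃ p : A[X],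
      algebraMap A[X] E p = a := by
    intro a ha
    induction ha using Algebra.adjoin_induction with
    | mem x hx =>
      obtain ⟨y, rfl⟩ := hx
      by_cases hy : (y : E) = u
      · exact ⟨X, by rw [hmap, aeval_X]; exact hy.symm⟩
      · refine ⟨C ⟨(y : E), Algebra.subset_adjoin ⟨y, ?_, rfl⟩⟩, ?_⟩
        · rw [hs]; exact hy
        · rw [hmap, aeval_C]; rfl
    | algebraMap r => exact ⟨C (algebraMap K A r), by rw [hmap, aeval_C]; rfl⟩
    | add x y _ _ hx hy =>
      obtain ⟨p, hp⟩ := hx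
      obtain ⟨q, hq⟩ := hy
      exact ⟨p + q, by rw [map_add, hp, hq]⟩
    | mul x y _ _ hx hy =>
      obtain ⟨p, hp⟩ := hx
      obtain ⟨q, hq⟩ := hy
      exact ⟨p * q, by rw [map_mul, hp, hq]⟩
  have hAX : Algebra.IsAlgebraic A[X] E := by
    have h2 := hb.isAlgebraic
    refine ⟨fun g => AX.isAlg_lift (A := Algebra.adjoin K (Set.range fun x : t => (x : E))) ?_ ?_
      (h2.isAlgebraic g)⟩
    · exact Subtype.val_injective
    · rintro ⟨a, ha⟩
      exact hle a ha
  obtain ⟨δ, hδ⟩ := AX.exists_der (A := A) (E := E)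
  refine ⟨δ.restrictScalars ℤ, ?_, ?_, ?_⟩
  · have h2 := hδ X
    rw [hmap, aeval_X, derivative_X, map_one] at h2
    exact h2
  · intro v hv hvu
    exact δ.map_algebraMap (⟨v, Algebra.subset_adjoin ⟨⟨v, ht hv⟩, by rw [hs]; exact hvu, rfl⟩⟩ : A)
  · intro k
    exact δ.map_algebraMap (algebraMap K A k)

/-- derivations which vanish on a field -/
def Dr (L : IntermediateField ℚ ℂ) : Submodule ℂ (Derivation ℤ ℂ ℂ) where
  carrier := {D | ∀ z ∈ L, D z = 0}
  add_mem' := by
    intro a b ha hb z hz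
    rw [Derivation.add_apply, ha z hz, hb z hz, add_zero]
  zero_mem' := fun z _ => rfl
  smul_mem' := by
    intro c a ha z hz
    rw [Derivation.smul_apply, ha z hz, smul_zero]

theorem mem_Dr {L : IntermediateField ℚ ℂ} {D : Derivation ℤ ℂ ℂ} : D ∈ Dr L ↔ ∀ z ∈ L, D z = 0 :=
  Iff.rfl

/-- a derivation which vanishes on a field and on some numbers vanishes on the algebraic elements -/
theorem Dr_ext {L : IntermediateField ℚ ℂ} {S : Finset ℂ} {D : Derivation ℤ ℂ ℂ} (hD : D ∈ Dr L)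
    (hS : ∀ z ∈ S, D z = 0) : D ∈ Dr (ext L S) := by
  intro z hz
  have h1 : ∀ x ∈ IntermediateField.adjoin L (S : Set ℂ), D x = 0 := by
    intro x hx
    induction hx using IntermediateField.adjoin_induction with
    | mem x hx => exact hS x hx
    | algebraMap q => exact hD _ q.2
    | add x y _ _ hx hy => rw [map_add, hx, hy, add_zero]
    | inv x _ hx => rw [D.leibniz_inv, hx, smul_zero]
    | mul x y _ _ hx hy => rw [D.leibniz, hx, hy, smul_zero, smul_zero, add_zero]
  exact h1 z (mem_of_ext hz)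

theorem Dr_alg {L : IntermediateField ℚ ℂ} {D : Derivation ℤ ℂ ℂ} (hD : D ∈ Dr L) {u : ℂ}
    (hu : IsAlgebraic L u) : D u = 0 :=
  AX.der_alg (K := L) D (fun k => hD _ k.2) hu

/-- dependent numbers have dependent differentials -/
theorem dep_diff {L : IntermediateField ℚ ℂ} {r : ℕ} {θ : Fin r → ℂ}
    (hθ : ¬ AlgebraicIndependent L θ) :
    ∃ v : Fin r → ℂ, v ≠ 0 ∧ ∀ D ∈ Dr L, ∑ b, v b * D (θ b) = 0 := by
  classical
  obtain ⟨i, hi⟩ := exists_dependent L θ hθ
  obtain ⟨e, he⟩ : ∃ e : Fin r → (Dr L →ₗ[ℂ] ℂ), ∀ b (D : Dr L), e b D = (D : Derivation ℤ ℂ ℂ) (θ b) := by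
    refine ⟨fun b => LinearMap.mk (AddHom.mk (fun D => (D : Derivation ℤ ℂ ℂ) (θ b)) ?_) ?_,
      fun b D => rfl⟩
    · intro D₁ D₂
      rfl
    · intro x D₁
      rfl
  have h1 : e i ∈ Submodule.span ℂ (Set.range fun b : {b : Fin r // b ≠ i} => e b) := by
    refine mem_span_of_iInf_ker_le_ker ?_
    intro D hD
    rw [Submodule.mem_iInf] at hD
    rw [LinearMap.mem_ker, he]
    refine Dr_alg (Dr_ext D.2 ?_) hi
    intro z hz
    obtain ⟨b, hb, rfl⟩ := Finset.mem_image.1 hz
    have h2 := hD ⟨b, (Finset.mem_erase.1 hb).1⟩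
    rw [LinearMap.mem_ker, he] at h2
    exact h2
  rw [Submodule.mem_span_range_iff_exists_fun] at h1
  obtain ⟨c, hc⟩ := h1
  refine ⟨fun b => if h : b = i then -1 else c ⟨b, h⟩, ?_, ?_⟩
  · intro h
    have := congrFun h i
    simp at this
  · intro D hD
    have h2 := congrArg (fun f : Dr L →ₗ[ℂ] ℂ => f ⟨D, hD⟩) hc
    simp only [LinearMap.sum_apply, LinearMap.smul_apply, smul_eq_mul, he] at h2
    rw [← Finset.add_sum_erase Finset.univ _ (Finset.mem_univ i)]
    simp only [dif_pos]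
    have h3 : ∑ b ∈ Finset.univ.erase i, (if h : b = i then (-1 : ℂ) else c ⟨b, h⟩) * D (θ b) =
        ∑ b : {b : Fin r // b ≠ i}, c b * D (θ b) := by
      have h4 : (Finset.univ.erase i) = (Finset.univ.filter fun b : Fin r => b ≠ i) := by
        ext b
        simp
      rw [h4, ← Finset.sum_subtype_eq_sum_filter, Finset.subtype_univ]
      refine Finset.sum_congr rfl fun b _ => ?_
      rw [dif_neg b.2]
    rw [h3, h2]
    ring

/-- dual derivations -/
theorem dual_der {L : IntermediateField ℚ ℂ} {r : ℕ} {θ : Fin r → ℂ}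
    (hθ : AlgebraicIndependent L θ) :
    ∃ D : Fin r → Derivation ℤ ℂ ℂ, (∀ a, D a ∈ Dr L) ∧ ∀ a b, D a (θ b) = if a = b then 1 else 0 := by
  classical
  have hinj : Function.Injective θ := hθ.injective
  have hS : AlgebraicIndepOn L id (Set.range θ) := hθ.coe_range
  have h1 : ∀ a, ∃ D : Derivation ℤ ℂ ℂ, D ∈ Dr L ∧ ∀ b, D (θ b) = if a = b then 1 else 0 := by
    intro a
    obtain ⟨D, hD1, hD2, hD3⟩ := exists_der_basis (K := L) (Set.range θ) hS (θ a) ⟨a, rfl⟩
    refine ⟨D, fun z hz => hD3 ⟨z, hz⟩, fun b => ?_⟩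
    by_cases hab : a = b
    · rw [if_pos hab, ← hab, hD1]
    · rw [if_neg hab]
      exact hD2 _ ⟨b, rfl⟩ fun h => hab (hinj h.symm)
  choose D hD1 hD2 using h1
  exact ⟨D, hD1, hD2⟩

/-- the logarithmic derivative of the exponential -/
noncomputable def DL (D : Derivation ℤ ℂ ℂ) : ℂ →ₗ[ℚ] ℂ :=
  (AddMonoidHom.mk' (fun z => D (Complex.exp z) / Complex.exp z) (fun z w => by
    show D (Complex.exp (z + w)) / Complex.exp (z + w) = _
    rw [Complex.exp_add, AX.ld_mul D (Complex.exp_ne_zero z) (Complex.exp_ne_zero w)])).toRatLinearMap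

theorem DL_apply (D : Derivation ℤ ℂ ℂ) (z : ℂ) : DL D z = D (Complex.exp z) / Complex.exp z := rfl

theorem DL_eq_zero {D : Derivation ℤ ℂ ℂ} {z : ℂ} : DL D z = 0 ↔ D (Complex.exp z) = 0 := by
  rw [DL_apply, div_eq_zero_iff]
  exact or_iff_left (Complex.exp_ne_zero z)

/-- minors of dependent exponentials vanish -/
theorem minor_zero {L : IntermediateField ℚ ℂ} {r : ℕ} {w : Fin r → ℂ}
    (hw : ¬ AlgebraicIndependent L (fun b => Complex.exp (w b))) (D : Fin r → Derivation ℤ ℂ ℂ)
    (hD : ∀ a, D a ∈ Dr L) : (Matrix.of fun a b => DL (D a) (w b)).det = 0 := by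
  classical
  obtain ⟨v, hv0, hv⟩ := dep_diff hw
  rw [← Matrix.exists_mulVec_eq_zero_iff]
  refine ⟨fun b => v b * Complex.exp (w b), ?_, ?_⟩
  · intro h
    apply hv0
    funext b
    have := congrFun h b
    exact (mul_eq_zero.1 this).resolve_right (Complex.exp_ne_zero _)
  · funext a
    rw [Matrix.mulVec, dotProduct, Pi.zero_apply, ← hv (D a) (hD a)]
    refine Finset.sum_congr rfl fun b _ => ?_
    rw [Matrix.of_apply, DL_apply]
    have := Complex.exp_ne_zero (w b)
    field_simp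

end Pool.Agent.Zk25.GP
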