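import Pool.Agent.Zk25.GP.Minor
import Pool.Agent.Zk25.GP.Count

/-!
# Large transcendence degree at generic points
-/

set_option autoImplicit false

namespace Pool.Agent.Zk25.GP

open MvPolynomial Module Pool.Agent.Zk25 Pool.Agent.Zk25.LT

theorem cons_dep {L : IntermediateField ℚ ℂ} {ρ : ℕ} {θ : Fin ρ → ℂ} {a : ℂ}
    (hI : AlgebraicIndependent L θ)
    (h : ¬ AlgebraicIndependent L (Fin.cons a θ : Fin (ρ + 1) → ℂ)) :
    IsAlgebraic (ext L (Finset.univ.image θ)) a := by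
  classical
  have h1 : IsAlgebraic (Algebra.adjoin L (Set.range θ)) a := by
    by_contra hcon
    apply h
    have h2 := (hI.option_iff_transcendental a).2 hcon
    have h3 := (algebraicIndependent_equiv (finSuccEquiv ρ)).2 h2
    have h4 : ((fun o : Option (Fin ρ) => o.elim a θ) ∘ finSuccEquiv ρ) =
        (Fin.cons a θ : Fin (ρ + 1) → ℂ) := by
      funext i
      refine Fin.cases ?_ (fun i => ?_) i
      · rw [Function.comp_apply, finSuccEquiv_zero]
        rfl
      · rw [Function.comp_apply, finSuccEquiv_succ]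
        rfl
    rw [← h4]
    exact h3
  refine isAlg_of_subset' (A := Algebra.adjoin L (Set.range θ)) Subtype.val_injective ?_ h1
  intro b
  have h2 : Algebra.adjoin L (Set.range θ) ≤ (IntermediateField.adjoin L
      (((Finset.univ.image θ : Finset ℂ)) : Set ℂ)).toSubalgebra := by
    refine Algebra.adjoin_le ?_
    rintro _ ⟨j, rfl⟩
    refine IntermediateField.subset_adjoin _ _ ?_
    rw [Finset.coe_image]
    exact ⟨j, Finset.mem_coe.2 (Finset.mem_univ j), rfl⟩
  exact ⟨⟨(b : ℂ), mem_ext_of (h2 b.2)⟩, rfl⟩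

variable {M N : ℕ}

/-- all points of a given transcendence degree -/
theorem stratum {L : IntermediateField ℚ ℂ} {s : ℕ} (hL : Algebra.trdeg ℚ L ≤ s) {ρ C W : ℕ}
    (hC : 3 ^ ((s + ρ + 2) ^ 3) ≤ C) (hM : C + ρ ≤ M) (z : Fin M → ℂ) {β : Fin M → ℂ}
    (hβ : LinearIndependent ℚ β) {x : Fin N → ℂ} (hx : LinearIndependent ℚ x) (hW : 1 ≤ W)
    (A : Fin N → Finset ℚ) (hA : ∀ j, (A j).card ≤ W) (G : Finset (Fin N → ℚ))
    (hG : G ⊆ Fintype.piFinset A)
    (h1 : ∀ k ∈ G, ∃ I : Fin ρ → Fin M, AlgebraicIndependent L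
      (fun b => Complex.exp (wp z β x k (I b))))
    (h2 : ∀ k ∈ G, ∀ c : Fin (ρ + 1) → Fin M, ¬ AlgebraicIndependent L
      (fun b => Complex.exp (wp z β x k (c b)))) :
    G.card ≤ (N * (ρ + 2) ^ (N + 1)) ^ (N - (C - 1)) * W ^ (C - 1) := by
  classical
  have hC0 : 1 ≤ C := le_trans (Nat.one_le_pow _ _ (by omega)) hC
  refine count (d := ρ + 1) (Fam z β x L ρ) (fun g hg => Fam_degree z β x hg) hW A hA G hG
    (fun k hk g hg => Fam_eval z β x hg (h2 k hk)) ?_
  intro k hk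
  by_contra hcon
  have hcon' : C ≤ finrank ℚ (Kf (Fam z β x L ρ) k) := by omega
  obtain ⟨I, hI⟩ := h1 k hk
  have hmax : ∀ i, IsAlgebraic (ext L (Finset.univ.image fun b => Complex.exp (wp z β x k (I b))))
      (Complex.exp (wp z β x k i)) := by
    intro i
    refine cons_dep hI ?_
    have h3 := h2 k hk (Fin.cons i I : Fin (ρ + 1) → Fin M)
    have h4 : (fun b => Complex.exp (wp z β x k ((Fin.cons i I : Fin (ρ + 1) → Fin M) b))) =
        (Fin.cons (Complex.exp (wp z β x k i)) (fun b => Complex.exp (wp z β x k (I b))) :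
          Fin (ρ + 1) → ℂ) := by
      funext b
      refine Fin.cases ?_ (fun b => ?_) b
      · rfl
      · rfl
    rw [← h4]
    exact h3
  obtain ⟨D₁, hD1, hD2, hT⟩ := kernel_small hL hC hM hβ hx (wp z β x k) I hI hmax
  obtain ⟨f, hf⟩ := exists_linearIndependent_of_le_finrank hcon'
  obtain ⟨l, hl⟩ := hT (fun l => (f l : Fin N → ℚ))
    (hf.map' (Kf (Fam z β x L ρ) k).subtype (Submodule.ker_subtype _))
  exact hl (Fam_tan z β x I hmax hD1 hD2 (f l).2)

open Classical in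
/-- **few exceptions** -/
theorem few {L : IntermediateField ℚ ℂ} {s : ℕ} (hL : Algebra.trdeg ℚ L ≤ s) {r W : ℕ}
    (hM : 3 ^ ((s + r + 1) ^ 3) + r ≤ M + 1) (z : Fin M → ℂ) {β : Fin M → ℂ}
    (hβ : LinearIndependent ℚ β) {x : Fin N → ℂ} (hx : LinearIndependent ℚ x) (hW : 1 ≤ W)
    (A : Fin N → Finset ℚ) (hA : ∀ j, (A j).card ≤ W) :
    ((Fintype.piFinset A).filter fun k => ∀ I : Fin r → Fin M, ¬ AlgebraicIndependent L
      (fun b => Complex.exp (z (I b) + β (I b) * ∑ j, (k j : ℂ) * x j))).card ≤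
      r * (N * (r + 1) ^ (N + 1)) ^ N * W ^ (3 ^ ((s + r + 1) ^ 3) - 1) := by
  obtain ⟨C, hC⟩ : ∃ C, C = 3 ^ ((s + r + 1) ^ 3) := ⟨_, rfl⟩
  rw [← hC] at hM ⊢
  obtain ⟨G, hG⟩ : ∃ G : ℕ → Finset (Fin N → ℚ), G = fun ρ => (Fintype.piFinset A).filter fun k =>
    (∃ I : Fin ρ → Fin M, AlgebraicIndependent L (fun b => Complex.exp (wp z β x k (I b)))) ∧
    ∀ c : Fin (ρ + 1) → Fin M, ¬ AlgebraicIndependent L
      (fun b => Complex.exp (wp z β x k (c b))) := ⟨_, rfl⟩
  have h1 : ((Fintype.piFinset A).filter fun k => ∀ I : Fin r → Fin M, ¬ AlgebraicIndependent L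
      (fun b => Complex.exp (z (I b) + β (I b) * ∑ j, (k j : ℂ) * x j))) ⊆
      (Finset.range r).biUnion G := by
    intro k hk
    rw [Finset.mem_filter] at hk
    obtain ⟨hkA, hk⟩ := hk
    have hex : ∃ n, ∀ c : Fin n → Fin M, ¬ AlgebraicIndependent L
      (fun b => Complex.exp (wp z β x k (c b))) := ⟨r, hk⟩
    have hfind := Nat.find_spec hex
    have hle : Nat.find hex ≤ r := Nat.find_min' hex hk
    have hpos : Nat.find hex ≠ 0 := by
      intro h0
      rw [Nat.find_eq_zero] at h0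
      exact h0 Fin.elim0 (algebraicIndependent_empty_type_iff.2 (algebraMap L ℂ).injective)
    obtain ⟨ρ, hρ⟩ := Nat.exists_eq_succ_of_ne_zero hpos
    have hmin := Nat.find_min hex (m := ρ) (by omega)
    push Not at hmin
    rw [hρ] at hfind
    rw [Finset.mem_biUnion]
    refine ⟨ρ, Finset.mem_range.2 (by omega), ?_⟩
    rw [hG, Finset.mem_filter]
    exact ⟨hkA, hmin, hfind⟩
  have h2 : ∀ ρ ∈ Finset.range r, (G ρ).card ≤ (N * (r + 1) ^ (N + 1)) ^ N * W ^ (C - 1) := by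
    intro ρ hρ
    rw [Finset.mem_range] at hρ
    have h3 := stratum (M := M) (N := N) (ρ := ρ) (C := C) hL (by
      rw [hC]
      exact Nat.pow_le_pow_right (by omega) (Nat.pow_le_pow_left (by omega) 3)) (by omega) z hβ hx hW A hA (G ρ)
      (by rw [hG]; exact Finset.filter_subset _ _)
      (fun k hk => by rw [hG, Finset.mem_filter] at hk; exact hk.2.1)
      (fun k hk => by rw [hG, Finset.mem_filter] at hk; exact hk.2.2)
    refine h3.trans (Nat.mul_le_mul_right _ ?_)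
    rcases Nat.eq_zero_or_pos N with hN | hN
    · rw [hN, Nat.zero_sub, pow_zero, pow_zero]
    · have hb : 1 ≤ N * (r + 1) ^ (N + 1) := Nat.mul_pos hN (Nat.pow_pos (by omega))
      calc (N * (ρ + 2) ^ (N + 1)) ^ (N - (C - 1)) ≤ (N * (r + 1) ^ (N + 1)) ^ (N - (C - 1)) :=
            Nat.pow_le_pow_left (Nat.mul_le_mul_left _ (Nat.pow_le_pow_left (by omega) _)) _
        _ ≤ (N * (r + 1) ^ (N + 1)) ^ N := Nat.pow_le_pow_right hb (by omega)
  refine (Finset.card_le_card h1).trans (Finset.card_biUnion_le.trans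
    ((Finset.sum_le_sum h2).trans ?_))
  rw [Finset.sum_const, Finset.card_range, smul_eq_mul, mul_assoc]

end Pool.Agent.Zk25.GP
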