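import Pool.Agent.Zk25.GP.Kern
import Pool.Agent.Zk25.ZE.Elim

/-!
# Minors of matrices of logarithmic derivatives as polynomials
-/

set_option autoImplicit false

namespace Pool.Agent.Zk25.GP

open MvPolynomial Pool.Agent.Zk25 Pool.Agent.Zk25.LT

/-- the polynomial with rational coefficients obtained by a functional -/
noncomputable def rat {N : ℕ} (ℓ : Module.Dual ℚ ℂ) (f : MvPolynomial (Fin N) ℂ) :
    MvPolynomial (Fin N) ℚ := ∑ m ∈ f.support, monomial m (ℓ (f.coeff m))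

theorem rat_degree {N : ℕ} (ℓ : Module.Dual ℚ ℂ) (f : MvPolynomial (Fin N) ℂ) :
    (rat ℓ f).totalDegree ≤ f.totalDegree := by
  unfold rat
  refine totalDegree_finsetSum_le fun m hm => ?_
  refine (totalDegree_monomial_le _ _).trans ?_
  exact le_totalDegree hm

theorem rat_eval {N : ℕ} (ℓ : Module.Dual ℚ ℂ) (f : MvPolynomial (Fin N) ℂ) (k : Fin N → ℚ) :
    eval k (rat ℓ f) = ℓ (eval (fun j => (k j : ℂ)) f) := by
  have h1 : eval (fun j => (k j : ℂ)) f =
      ∑ m ∈ f.support, (∏ j, k j ^ m j) • f.coeff m := by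
    conv_lhs => rw [f.as_sum]
    rw [map_sum]
    refine Finset.sum_congr rfl fun m _ => ?_
    rw [eval_monomial, Finsupp.prod_fintype _ _ (fun j => pow_zero _), Rat.smul_def]
    push_cast
    ring
  rw [h1, map_sum]
  unfold rat
  rw [map_sum]
  refine Finset.sum_congr rfl fun m _ => ?_
  rw [eval_monomial, Finsupp.prod_fintype _ _ (fun j => pow_zero _), map_smul, smul_eq_mul, mul_comm]

theorem rat_pderiv {N : ℕ} (ℓ : Module.Dual ℚ ℂ) (f : MvPolynomial (Fin N) ℂ) (k : Fin N → ℚ)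
    (j : Fin N) :
    eval k (pderiv j (rat ℓ f)) = ℓ (eval (fun j => (k j : ℂ)) (pderiv j f)) := by
  have h1 : eval (fun j => (k j : ℂ)) (pderiv j f) =
      ∑ m ∈ f.support, ((m j : ℚ) * ∏ j', k j' ^ (m - Finsupp.single j 1 : Fin N →₀ ℕ) j') • f.coeff m := by
    conv_lhs => rw [f.as_sum]
    rw [map_sum, map_sum]
    refine Finset.sum_congr rfl fun m _ => ?_
    rw [pderiv_monomial, eval_monomial, Finsupp.prod_fintype _ _ (fun j => pow_zero _), Rat.smul_def]
    push_cast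
    ring
  rw [h1, map_sum]
  unfold rat
  rw [map_sum, map_sum]
  refine Finset.sum_congr rfl fun m _ => ?_
  rw [pderiv_monomial, eval_monomial, Finsupp.prod_fintype _ _ (fun j => pow_zero _), map_smul,
    smul_eq_mul]
  ring

variable {M N : ℕ} (z β : Fin M → ℂ) (x : Fin N → ℂ)

/-- the point -/
noncomputable def wp (k : Fin N → ℚ) : Fin M → ℂ := fun i => z i + β i * ∑ j, (k j : ℂ) * x j

/-- the linear polynomial -/
noncomputable def lin (D : Derivation ℤ ℂ ℂ) (i : Fin M) : MvPolynomial (Fin N) ℂ :=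
  C (DL D (z i)) + ∑ j, C (DL D (β i * x j)) * X j

theorem DL_smul (D : Derivation ℤ ℂ ℂ) (q : ℚ) (u : ℂ) : DL D ((q : ℂ) * u) = (q : ℂ) * DL D u := by
  have h1 := (DL D).map_smul q u
  rw [Rat.smul_def, Rat.smul_def] at h1
  exact h1

theorem lin_eval (D : Derivation ℤ ℂ ℂ) (i : Fin M) (k : Fin N → ℚ) :
    eval (fun j => (k j : ℂ)) (lin z β x D i) = DL D (wp z β x k i) := by
  unfold lin wp
  rw [map_add, map_sum, eval_C, map_add, Finset.mul_sum, map_sum]
  congr 1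
  refine Finset.sum_congr rfl fun j _ => ?_
  rw [map_mul, eval_C, eval_X]
  have h1 : β i * ((k j : ℂ) * x j) = (k j : ℂ) * (β i * x j) := by ring
  rw [h1, DL_smul, mul_comm]

theorem lin_pderiv (D : Derivation ℤ ℂ ℂ) (i : Fin M) (j : Fin N) :
    pderiv j (lin z β x D i) = C (DL D (β i * x j)) := by
  classical
  unfold lin
  rw [map_add, pderiv_C, zero_add, map_sum, Finset.sum_eq_single j]
  · rw [pderiv_mul, pderiv_C, zero_mul, zero_add, pderiv_X_self, mul_one]
  · intro j' _ hj'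
    rw [pderiv_mul, pderiv_C, zero_mul, zero_add, pderiv_X_of_ne hj', mul_zero]
  · intro h
    exact absurd (Finset.mem_univ j) h

theorem lin_degree (D : Derivation ℤ ℂ ℂ) (i : Fin M) : (lin z β x D i).totalDegree ≤ 1 := by
  unfold lin
  refine (totalDegree_add _ _).trans (max_le (by rw [totalDegree_C]; omega) ?_)
  refine totalDegree_finsetSum_le fun j _ => ?_
  refine (totalDegree_mul _ _).trans ?_
  rw [totalDegree_C, totalDegree_X]

/-- the minor -/
noncomputable def mnr {n : ℕ} (D : Fin n → Derivation ℤ ℂ ℂ) (c : Fin n → Fin M) :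
    MvPolynomial (Fin N) ℂ := (Matrix.of fun a b => lin z β x (D a) (c b)).det

theorem mnr_degree {n : ℕ} (D : Fin n → Derivation ℤ ℂ ℂ) (c : Fin n → Fin M) :
    (mnr z β x D c).totalDegree ≤ n := by
  unfold mnr
  rw [Matrix.det_apply]
  refine totalDegree_finsetSum_le fun σ _ => ?_
  refine (totalDegree_smul_le _ _).trans ?_
  refine (totalDegree_finsetProd _ _).trans ?_
  refine (Finset.sum_le_sum fun a _ => ?_).trans (le_of_eq (by rw [Finset.sum_const, Finset.card_univ,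
    Fintype.card_fin, smul_eq_mul, mul_one] : ∑ _a : Fin n, 1 = n))
  exact lin_degree z β x _ _

theorem mnr_eval {n : ℕ} (D : Fin n → Derivation ℤ ℂ ℂ) (c : Fin n → Fin M) (k : Fin N → ℚ) :
    eval (fun j => (k j : ℂ)) (mnr z β x D c) =
      (Matrix.of fun a b => DL (D a) (wp z β x k (c b))).det := by
  unfold mnr
  rw [RingHom.map_det]
  congr 1
  ext a b
  exact lin_eval z β x _ _ _

theorem mnr_grad {n : ℕ} (D : Fin (n + 1) → Derivation ℤ ℂ ℂ) (c : Fin (n + 1) → Fin M)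
    (k τ : Fin N → ℚ) (h0 : ∀ b, DL (D 0) (wp z β x k (c b)) = 0) :
    ∑ j, (τ j : ℂ) * eval (fun j => (k j : ℂ)) (pderiv j (mnr z β x D c)) =
      (Matrix.of (Fin.cons (fun b => DL (D 0) (β (c b) * ∑ j, (τ j : ℂ) * x j))
        (fun a b => DL (D a.succ) (wp z β x k (c b))) : Fin (n + 1) → Fin (n + 1) → ℂ)).det := by
  have h1 : ∀ j, eval (fun j => (k j : ℂ)) (pderiv j (mnr z β x D c)) =
      ∑ b : Fin (n + 1), (-1) ^ (b : ℕ) * DL (D 0) (β (c b) * x j) * ((Matrix.of fun a b =>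
        DL (D a) (wp z β x k (c b))).submatrix Fin.succ (Fin.succAbove b)).det := by
    intro j
    unfold mnr
    rw [Matrix.det_succ_row_zero, map_sum, map_sum]
    refine Finset.sum_congr rfl fun b _ => ?_
    have e1 : ((-1 : MvPolynomial (Fin N) ℂ) ^ (b : ℕ)) = C ((-1) ^ (b : ℕ)) := by
      rw [map_pow, map_neg, map_one]
    rw [e1, mul_assoc, pderiv_C_mul, Matrix.of_apply, pderiv_mul, lin_pderiv]
    simp only [map_mul, map_add, eval_C, lin_eval, h0, zero_mul, add_zero]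
    rw [mul_assoc]
    congr 2
    rw [RingHom.map_det]
    congr 1
    ext a b'
    exact lin_eval z β x _ _ _
  obtain ⟨v, hv⟩ : ∃ v : Fin (n + 1) → ℂ, v = fun b =>
    DL (D 0) (β (c b) * ∑ j, (τ j : ℂ) * x j) := ⟨_, rfl⟩
  rw [← hv, Matrix.det_succ_row_zero]
  simp only [h1, Finset.mul_sum]
  rw [Finset.sum_comm]
  refine Finset.sum_congr rfl fun b _ => ?_
  have e2 : v b = ∑ j, (τ j : ℂ) * DL (D 0) (β (c b) * x j) := by
    rw [hv]
    simp only [Finset.mul_sum]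
    rw [map_sum]
    refine Finset.sum_congr rfl fun j _ => ?_
    have e3 : β (c b) * ((τ j : ℂ) * x j) = (τ j : ℂ) * (β (c b) * x j) := by ring
    rw [e3, DL_smul]
  have e4 : (Matrix.of (Fin.cons v (fun a b => DL (D a.succ) (wp z β x k (c b))) :
      Fin (n + 1) → Fin (n + 1) → ℂ)) 0 b = v b := rfl
  have e5 : ((Matrix.of (Fin.cons v (fun a b => DL (D a.succ) (wp z β x k (c b))) :
      Fin (n + 1) → Fin (n + 1) → ℂ)).submatrix Fin.succ (Fin.succAbove b)) = ((Matrix.of fun a b =>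
        DL (D a) (wp z β x k (c b))).submatrix Fin.succ (Fin.succAbove b)) := by
    ext a b'
    rfl
  rw [e4, e5, e2, Finset.mul_sum, Finset.sum_mul]
  refine Finset.sum_congr rfl fun j _ => ?_
  ring

/-- a bordered determinant -/
theorem bordered {n : ℕ} (p₀ : ℂ) (p γ : Fin n → ℂ)
    (h : (Matrix.of (Fin.cons (Fin.cons p₀ p) (fun a => Fin.cons (γ a) (fun b => if a = b then 1 else 0)) :
      Fin (n + 1) → Fin (n + 1) → ℂ)).det = 0) : p₀ = ∑ b, γ b * p b := by
  classical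
  rw [← Matrix.exists_mulVec_eq_zero_iff] at h
  obtain ⟨v, hv0, hv⟩ := h
  have h1 : ∀ a : Fin n, γ a * v 0 + v a.succ = 0 := by
    intro a
    have e1 := congrFun hv a.succ
    rw [Matrix.mulVec, dotProduct, Fin.sum_univ_succ] at e1
    simp only [Matrix.of_apply, Fin.cons_succ, Fin.cons_zero, ite_mul, one_mul, zero_mul,
      Finset.sum_ite_eq, Finset.mem_univ, if_true, Pi.zero_apply] at e1
    exact e1
  have h2 : p₀ * v 0 + ∑ b, p b * v b.succ = 0 := by
    have e1 := congrFun hv 0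
    rw [Matrix.mulVec, dotProduct, Fin.sum_univ_succ] at e1
    simp only [Matrix.of_apply, Fin.cons_succ, Fin.cons_zero, Pi.zero_apply] at e1
    exact e1
  have h3 : v 0 ≠ 0 := by
    intro h0
    apply hv0
    funext a
    refine Fin.cases h0 (fun a => ?_) a
    have := h1 a
    rw [h0, mul_zero, zero_add] at this
    exact this
  have h4 : ∀ b : Fin n, v b.succ = - (γ b * v 0) := fun b => by
    linear_combination h1 b
  simp only [h4] at h2
  have h5 : (p₀ - ∑ b, γ b * p b) * v 0 = 0 := by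
    rw [← h2, sub_mul, Finset.sum_mul, sub_eq_add_neg, ← Finset.sum_neg_distrib]
    congr 1
    refine Finset.sum_congr rfl fun b _ => ?_
    ring
  exact sub_eq_zero.1 ((mul_eq_zero.1 h5).resolve_right h3)

/-- the family of rational equations -/
def Fam (L : IntermediateField ℚ ℂ) (ρ : ℕ) : Set (MvPolynomial (Fin N) ℚ) :=
  {g | ∃ (ℓ : Module.Dual ℚ ℂ) (D : Fin (ρ + 1) → Derivation ℤ ℂ ℂ) (c : Fin (ρ + 1) → Fin M),
    (∀ a, D a ∈ Dr L) ∧ g = rat ℓ (mnr z β x D c)}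

theorem Fam_degree {L : IntermediateField ℚ ℂ} {ρ : ℕ} {g : MvPolynomial (Fin N) ℚ}
    (hg : g ∈ Fam z β x L ρ) : g.totalDegree ≤ ρ + 1 := by
  obtain ⟨ℓ, D, c, _, rfl⟩ := hg
  exact (rat_degree _ _).trans (mnr_degree z β x _ _)

theorem Fam_eval {L : IntermediateField ℚ ℂ} {ρ : ℕ} {g : MvPolynomial (Fin N) ℚ}
    (hg : g ∈ Fam z β x L ρ) {k : Fin N → ℚ}
    (hk : ∀ c : Fin (ρ + 1) → Fin M, ¬ AlgebraicIndependent L
      (fun b => Complex.exp (wp z β x k (c b)))) : eval k g = 0 := by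
  obtain ⟨ℓ, D, c, hD, rfl⟩ := hg
  rw [rat_eval, mnr_eval, minor_zero (hk c) D hD, map_zero]

theorem Fam_tan {L : IntermediateField ℚ ℂ} {ρ : ℕ} {k : Fin N → ℚ} (I : Fin ρ → Fin M)
    (hmax : ∀ i, IsAlgebraic (ext L (Finset.univ.image fun b => Complex.exp (wp z β x k (I b))))
      (Complex.exp (wp z β x k i)))
    {D₁ : Fin ρ → Derivation ℤ ℂ ℂ} (hD₁ : ∀ a, D₁ a ∈ Dr L)
    (hD₁' : ∀ a b, DL (D₁ a) (wp z β x k (I b)) = if a = b then 1 else 0) {τ : Fin N → ℚ}
    (hτ : ∀ g ∈ Fam z β x L ρ, ∑ j, τ j * eval k (pderiv j g) = 0) :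
    Tan L (wp z β x k) I D₁ (fun i => β i * ∑ j, (τ j : ℂ) * x j) := by
  classical
  intro D hD hDI i
  have h0 : ∀ i, DL D (wp z β x k i) = 0 := by
    intro i
    rw [DL_eq_zero]
    refine Dr_alg (Dr_ext hD ?_) (hmax i)
    intro u hu
    obtain ⟨b, _, rfl⟩ := Finset.mem_image.1 hu
    exact DL_eq_zero.1 (hDI b)
  have h1 := mnr_grad z β x (Fin.cons D D₁ : Fin (ρ + 1) → Derivation ℤ ℂ ℂ)
    (Fin.cons i I : Fin (ρ + 1) → Fin M) k τ (fun b => by rw [Fin.cons_zero]; exact h0 _)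
  have h2 : ∑ j, (τ j : ℂ) * eval (fun j => (k j : ℂ)) (pderiv j (mnr z β x
      (Fin.cons D D₁ : Fin (ρ + 1) → Derivation ℤ ℂ ℂ) (Fin.cons i I : Fin (ρ + 1) → Fin M))) = 0 := by
    rw [← Module.forall_dual_apply_eq_zero_iff ℚ]
    intro ℓ
    rw [map_sum, ← hτ (rat ℓ (mnr z β x (Fin.cons D D₁ : Fin (ρ + 1) → Derivation ℤ ℂ ℂ)
      (Fin.cons i I : Fin (ρ + 1) → Fin M))) ⟨ℓ, _, _, by
        intro a
        refine Fin.cases ?_ (fun a => ?_) a
        · rw [Fin.cons_zero]; exact hD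
        · rw [Fin.cons_succ]; exact hD₁ a, rfl⟩]
    refine Finset.sum_congr rfl fun j _ => ?_
    rw [rat_pderiv]
    have h3 := ℓ.map_smul (τ j) (eval (fun j => (k j : ℂ)) (pderiv j (mnr z β x
      (Fin.cons D D₁ : Fin (ρ + 1) → Derivation ℤ ℂ ℂ) (Fin.cons i I : Fin (ρ + 1) → Fin M))))
    rw [Rat.smul_def, smul_eq_mul] at h3
    exact h3
  rw [h2] at h1
  refine bordered _ (fun b => DL D (β (I b) * ∑ j, (τ j : ℂ) * x j))
    (fun b => DL (D₁ b) (wp z β x k i)) ?_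
  refine Eq.trans ?_ h1.symm
  congr 1
  ext a b
  refine Fin.cases ?_ (fun a => ?_) a
  · refine Fin.cases ?_ (fun b => ?_) b
    · rfl
    · rfl
  · refine Fin.cases ?_ (fun b => ?_) b
    · rfl
    · exact (hD₁' a b).symm

end Pool.Agent.Zk25.GP
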