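import Pool.Agent.Zk25.GP.Log

/-!
# Tangent vectors and rational relations
-/

set_option autoImplicit false

namespace Pool.Agent.Zk25.GP

open Polynomial Pool.Agent.Zk25 Pool.Agent.Zk25.LT

/-- the numbers which are algebraic over a field -/
noncomputable def cl (F : IntermediateField ℚ ℂ) : IntermediateField ℚ ℂ :=
  (algebraicClosure F ℂ).restrictScalars ℚ

theorem mem_cl {F : IntermediateField ℚ ℂ} {z : ℂ} : z ∈ cl F ↔ IsAlgebraic F z :=
  mem_algebraicClosure_iff

theorem le_cl (F : IntermediateField ℚ ℂ) : F ≤ cl F := fun z hz =>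
  mem_cl.2 (isAlgebraic_algebraMap (⟨z, hz⟩ : F))

theorem trdeg_cl (F : IntermediateField ℚ ℂ) : Algebra.trdeg ℚ (cl F) ≤ Algebra.trdeg ℚ F := by
  have hf1 : FaithfulSMul F (algebraicClosure F ℂ) :=
    (faithfulSMul_iff_algebraMap_injective _ _).2 (algebraMap F (algebraicClosure F ℂ)).injective
  have hf2 : FaithfulSMul ℚ F :=
    (faithfulSMul_iff_algebraMap_injective _ _).2 (algebraMap ℚ F).injective
  have h2 : Algebra.trdeg ℚ F + Algebra.trdeg F (algebraicClosure F ℂ) =
    Algebra.trdeg ℚ (algebraicClosure F ℂ) := trdeg_add_eq ℚ F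
  have h3 : Algebra.trdeg F (algebraicClosure F ℂ) = 0 :=
    trdeg_eq_zero_iff.2 (algebraicClosure.isAlgebraic F ℂ)
  have h4 : Algebra.trdeg ℚ (cl F) ≤ Algebra.trdeg ℚ (algebraicClosure F ℂ) := by
    obtain ⟨f, hf⟩ : ∃ f : cl F →+* algebraicClosure F ℂ, ∀ z, ((f z : algebraicClosure F ℂ) : ℂ) = z := by
      refine ⟨{ toFun := fun z => ⟨z, mem_algebraicClosure_iff.2 (mem_cl.1 z.2)⟩, map_one' := rfl,
                map_mul' := fun _ _ => rfl, map_zero' := rfl, map_add' := fun _ _ => rfl },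
        fun z => rfl⟩
    refine trdeg_le_of_injective f.toRatAlgHom ?_
    intro a b hab
    have e1 : f a = f b := hab
    exact Subtype.ext (by rw [← hf a, ← hf b, e1])
  refine h4.trans ?_
  rw [← h2, h3, add_zero]

/-- a derivation which maps a field to itself maps algebraic numbers to algebraic numbers -/
theorem der_cl {F : IntermediateField ℚ ℂ} {D : Derivation ℤ ℂ ℂ} (hD : ∀ z ∈ F, D z ∈ F) {u : ℂ}
    (hu : u ∈ cl F) : D u ∈ cl F := by
  have hpoly : ∀ P : F[X], ∃ q ∈ cl F, D (aeval u P) = q + aeval u (derivative P) * D u := by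
    intro P
    induction P using Polynomial.induction_on' with
    | add p q hp hq =>
      obtain ⟨a, ha, ha'⟩ := hp
      obtain ⟨b, hb, hb'⟩ := hq
      refine ⟨a + b, (cl F).add_mem ha hb, ?_⟩
      rw [map_add, map_add, ha', hb', derivative_add, map_add]
      ring
    | monomial n a =>
      refine ⟨D (a : ℂ) * u ^ n, (cl F).mul_mem (le_cl F (hD _ a.2)) ((cl F).pow_mem hu n), ?_⟩
      rw [aeval_monomial, derivative_monomial, aeval_monomial, D.leibniz, D.leibniz_pow]
      simp only [smul_eq_mul, map_mul, map_natCast, nsmul_eq_mul]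
      have e1 : (algebraMap F ℂ) a = (a : ℂ) := rfl
      rw [e1]
      ring
  have hu' := mem_cl.1 hu
  have hint : IsIntegral F u := hu'.isIntegral
  obtain ⟨q, hq, h⟩ := hpoly (minpoly F u)
  rw [minpoly.aeval, map_zero] at h
  have h2 : aeval u (derivative (minpoly F u)) ≠ 0 :=
    (minpoly.irreducible hint).separable.aeval_derivative_ne_zero (minpoly.aeval F u)
  have h3 : D u = -q / aeval u (derivative (minpoly F u)) := by
    rw [eq_div_iff h2]
    linear_combination -h
  rw [h3]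
  have h4 : aeval u (derivative (minpoly F u)) ∈ cl F := by
    have h5 : ∀ P : F[X], aeval u P ∈ cl F := by
      intro P
      induction P using Polynomial.induction_on' with
      | add p q hp hq => rw [map_add]; exact (cl F).add_mem hp hq
      | monomial n a =>
        rw [aeval_monomial]
        exact (cl F).mul_mem (le_cl F a.2) ((cl F).pow_mem hu n)
    exact h5 _
  exact (cl F).div_mem ((cl F).neg_mem hq) h4

/-- a derivation maps the field generated by numbers into itself if it does so for the numbers -/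
theorem der_ext {L : IntermediateField ℚ ℂ} {S : Finset ℂ} {D : Derivation ℤ ℂ ℂ} (hD : D ∈ Dr L)
    (hS : ∀ z ∈ S, D z ∈ ext L S) : ∀ z ∈ ext L S, D z ∈ ext L S := by
  intro z hz
  have h1 : ∀ x ∈ IntermediateField.adjoin L (S : Set ℂ), x ∈ ext L S ∧ D x ∈ ext L S := by
    intro x hx
    induction hx using IntermediateField.adjoin_induction with
    | mem x hx =>
      exact ⟨IntermediateField.subset_adjoin _ _ (Or.inr hx), hS x hx⟩
    | algebraMap q =>
      refine ⟨IntermediateField.subset_adjoin _ _ (Or.inl q.2), ?_⟩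
      have : D (algebraMap L ℂ q) = 0 := hD _ q.2
      rw [this]
      exact (ext L S).zero_mem
    | add x y _ _ hx hy =>
      rw [map_add]
      exact ⟨(ext L S).add_mem hx.1 hy.1, (ext L S).add_mem hx.2 hy.2⟩
    | inv x _ hx =>
      refine ⟨(ext L S).inv_mem hx.1, ?_⟩
      rw [D.leibniz_inv, smul_eq_mul]
      exact (ext L S).mul_mem ((ext L S).neg_mem ((ext L S).pow_mem ((ext L S).inv_mem hx.1) 2)) hx.2
    | mul x y _ _ hx hy =>
      rw [D.leibniz, smul_eq_mul, smul_eq_mul]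
      exact ⟨(ext L S).mul_mem hx.1 hy.1,
        (ext L S).add_mem ((ext L S).mul_mem hx.1 hy.2) ((ext L S).mul_mem hy.1 hx.2)⟩
  exact (h1 z (mem_of_ext hz)).2

/-- tangent vectors -/
def Tan (L : IntermediateField ℚ ℂ) {M ρ : ℕ} (w : Fin M → ℂ) (I : Fin ρ → Fin M)
    (D₁ : Fin ρ → Derivation ℤ ℂ ℂ) (v : Fin M → ℂ) : Prop :=
  ∀ D ∈ Dr L, (∀ b, DL D (w (I b)) = 0) → ∀ i, DL D (v i) = ∑ b, DL (D₁ b) (w i) * DL D (v (I b))

theorem tangent {L : IntermediateField ℚ ℂ} {s : ℕ} (hL : Algebra.trdeg ℚ L ≤ s) {M ρ : ℕ}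
    (w : Fin M → ℂ) (I : Fin ρ → Fin M)
    (hI : AlgebraicIndependent L (fun b => Complex.exp (w (I b))))
    (hmax : ∀ i, IsAlgebraic (ext L (Finset.univ.image fun b => Complex.exp (w (I b))))
      (Complex.exp (w i))) :
    ∃ (K₀ : IntermediateField ℚ ℂ) (D₁ : Fin ρ → Derivation ℤ ℂ ℂ) (χ : Fin M → Fin M → ℤ) (m : ℤ),
      Algebra.trdeg ℚ K₀ ≤ ((s + ρ : ℕ) : Cardinal) ∧ (∀ a, D₁ a ∈ Dr L) ∧
      (∀ a b, DL (D₁ a) (w (I b)) = if a = b then 1 else 0) ∧ m ≠ 0 ∧
      (∀ i i', i ∉ Set.range I → i' ∉ Set.range I → χ i i' = if i' = i then m else 0) ∧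
      ∀ v, Tan L w I D₁ v → ∀ i, IsAlgebraic K₀ (Complex.exp (∑ i', (χ i i' : ℂ) * v i')) := by
  classical
  obtain ⟨S, hS⟩ : ∃ S : Finset ℂ, S = Finset.univ.image fun b => Complex.exp (w (I b)) := ⟨_, rfl⟩
  rw [← hS] at hmax
  obtain ⟨D₀, hD₀1, hD₀2⟩ := dual_der hI
  obtain ⟨D₁, hD₁⟩ : ∃ D₁ : Fin ρ → Derivation ℤ ℂ ℂ, D₁ = fun a => Complex.exp (w (I a)) • D₀ a :=
    ⟨_, rfl⟩
  have h1 : ∀ a, D₁ a ∈ Dr L := fun a => by
    rw [hD₁]
    exact (Dr L).smul_mem _ (hD₀1 a)
  have h2 : ∀ a b, D₁ a (Complex.exp (w (I b))) = if a = b then Complex.exp (w (I b)) else 0 := by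
    intro a b
    rw [hD₁, Derivation.smul_apply, hD₀2, smul_eq_mul]
    by_cases hab : a = b
    · rw [if_pos hab, if_pos hab, mul_one, hab]
    · rw [if_neg hab, if_neg hab, mul_zero]
  have h3 : ∀ a b, DL (D₁ a) (w (I b)) = if a = b then 1 else 0 := by
    intro a b
    rw [DL_apply, h2]
    by_cases hab : a = b
    · rw [if_pos hab, if_pos hab, div_self (Complex.exp_ne_zero _)]
    · rw [if_neg hab, if_neg hab, zero_div]
  have hSmem : ∀ b, Complex.exp (w (I b)) ∈ ext L S := fun b => by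
    refine IntermediateField.subset_adjoin _ _ (Or.inr ?_)
    rw [hS, Finset.coe_image]
    exact ⟨b, Finset.mem_coe.2 (Finset.mem_univ _), rfl⟩
  have h4 : ∀ a, ∀ z ∈ ext L S, D₁ a z ∈ ext L S := by
    intro a
    refine der_ext (h1 a) ?_
    intro z hz
    have hz' := hz
    rw [hS] at hz'
    obtain ⟨b, _, rfl⟩ := Finset.mem_image.1 hz'
    rw [h2]
    split_ifs
    · exact hSmem b
    · exact (ext L S).zero_mem
  have h5 : ∀ b i, DL (D₁ b) (w i) ∈ cl (ext L S) := by
    intro b i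
    rw [DL_apply]
    exact (cl _).div_mem (der_cl (h4 b) (mem_cl.2 (hmax i))) (mem_cl.2 (hmax i))
  obtain ⟨K₀, hK₀⟩ : ∃ K₀, K₀ = cl (ext L S) := ⟨_, rfl⟩
  rw [← hK₀] at h5
  obtain ⟨c, hc⟩ : ∃ c : Fin M → Fin M → K₀, c = fun i i' => (if i' = i then 1 else 0) -
      ∑ b, (⟨_, h5 b i⟩ : K₀) * (if i' = I b then 1 else 0) := ⟨_, rfl⟩
  obtain ⟨φ, hφ⟩ : ∃ φ : Module.Dual ℚ K₀, φ 1 ≠ 0 := by
    by_contra hcon
    push Not at hcon
    exact one_ne_zero ((Module.forall_dual_apply_eq_zero_iff ℚ (1 : K₀)).1 hcon)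
  obtain ⟨ℓ, hℓ⟩ : ∃ ℓ : Module.Dual ℚ K₀, ℓ 1 = 1 :=
    ⟨(φ 1)⁻¹ • φ, by rw [LinearMap.smul_apply, smul_eq_mul, inv_mul_cancel₀ hφ]⟩
  obtain ⟨m, hm⟩ : ∃ m : ℕ, m = ∏ p : Fin M × Fin M, (ℓ (c p.1 p.2)).den := ⟨_, rfl⟩
  have hm0 : m ≠ 0 := by
    rw [hm]
    exact Finset.prod_ne_zero_iff.2 fun p _ => (ℓ (c p.1 p.2)).den_ne_zero
  have hint : ∀ i i', ∃ χ : ℤ, (χ : ℚ) = (m : ℚ) * ℓ (c i i') := by
    intro i i'
    refine ⟨(∏ p ∈ Finset.univ.erase ((i, i') : Fin M × Fin M), ((ℓ (c p.1 p.2)).den : ℤ)) *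
      (ℓ (c i i')).num, ?_⟩
    rw [hm, ← Finset.mul_prod_erase Finset.univ _ (Finset.mem_univ ((i, i') : Fin M × Fin M))]
    push_cast
    have := Rat.mul_den_eq_num (ℓ (c i i'))
    rw [← this]
    ring
  choose χ hχ using hint
  refine ⟨K₀, D₁, χ, m, ?_, h1, h3, by exact_mod_cast hm0, ?_, ?_⟩
  · rw [hK₀]
    refine (trdeg_cl _).trans ((trdeg_ext_le hL S).trans ?_)
    have h6 : S.card ≤ ρ := by
      rw [hS]
      exact Finset.card_image_le.trans (by simp)
    exact_mod_cast (by omega : s + S.card ≤ s + ρ)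
  · intro i i' hi hi'
    have h6 : c i i' = if i' = i then 1 else 0 := by
      rw [hc]
      simp only
      rw [Finset.sum_eq_zero, sub_zero]
      intro b _
      rw [if_neg, mul_zero]
      intro h
      exact hi' ⟨b, h.symm⟩
    have h7 := hχ i i'
    rw [h6] at h7
    by_cases hii : i' = i
    · rw [if_pos hii, hℓ, mul_one] at h7
      rw [if_pos hii]
      exact_mod_cast h7
    · rw [if_neg hii, map_zero, mul_zero] at h7
      rw [if_neg hii]
      exact_mod_cast h7
  · intro v hv i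
    have h6 := AX.rational_relation (K := K₀) (E := ℂ) (fun i' => Complex.exp (v i'))
      (fun i' => Complex.exp_ne_zero _) (c i) (by
        intro D
        obtain ⟨D', hD'⟩ : ∃ D' : Derivation ℤ ℂ ℂ, D' = D.restrictScalars ℤ := ⟨_, rfl⟩
        have hD'a : ∀ z, D' z = D z := fun z => by rw [hD']; rfl
        have hker : ∀ z ∈ K₀, D z = 0 := fun z hz => D.map_algebraMap (⟨z, hz⟩ : K₀)
        have hkerS : ∀ z ∈ ext L S, D z = 0 := fun z hz => hker z (by rw [hK₀]; exact le_cl _ hz)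
        have hD'L : D' ∈ Dr L := by
          intro z hz
          rw [hD'a]
          exact hkerS z (IntermediateField.subset_adjoin _ _ (Or.inl hz))
        have h7 := hv D' hD'L (fun b => by
          rw [DL_eq_zero, hD'a]
          exact hkerS _ (hSmem b)) i
        have h8 : ∀ i', D (Complex.exp (v i')) / Complex.exp (v i') = DL D' (v i') := fun i' => by
          rw [DL_apply, hD'a]
        simp only [h8]
        have h9 : ∀ i', algebraMap K₀ ℂ (c i i') = (if i' = i then 1 else 0) -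
            ∑ b, DL (D₁ b) (w i) * (if i' = I b then 1 else 0) := by
          intro i'
          rw [hc]
          simp only [map_sub, map_sum, map_mul]
          congr 1
          · split_ifs
            · exact map_one _
            · exact map_zero _
          · refine Finset.sum_congr rfl fun b _ => ?_
            congr 1
            split_ifs
            · exact map_one _
            · exact map_zero _
        simp only [h9, sub_mul, Finset.sum_sub_distrib, Finset.sum_mul]
        rw [Finset.sum_comm]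
        simp only [ite_mul, one_mul, zero_mul, mul_ite, mul_one, mul_zero, Finset.sum_ite_eq',
          Finset.mem_univ, if_true]
        rw [h7, sub_self])
      ℓ.toAddMonoidHom (χ i) m (fun i' => hχ i i')
    rw [Complex.exp_sum]
    have h7 : ∀ i', Complex.exp ((χ i i' : ℂ) * v i') = Complex.exp (v i') ^ (χ i i') := fun i' =>
      Complex.exp_int_mul _ _
    rw [Finset.prod_congr rfl fun i' _ => h7 i']
    exact h6

end Pool.Agent.Zk25.GP
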